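import Pool.Agent.K7.H74.WL.Dn
import Pool.Agent.K7.H74.WD.Ind
import Pool.Agent.K7.H74.WS.Main
import Pool.Agent.K7.H74.WS.SlG

set_option autoImplicit false

/-! Waring's problem with shifts: few real numbers have few representations, more than `k` variables. -/

namespace Pool.Agent.K7.H74.WL

open MeasureTheory Filter Topology
open K7.H74.WD K7.H74.WS

/-- the set of the `t` with less than `θ t ^ (s / k - 1)` solutions at distance `< η` -/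
def Bd {s : ℕ} (k : ℕ) (η θ : ℝ) (ξ : Fin s → ℝ) : Set ℝ :=
  {t | 1 ≤ t ∧ ∀ A : Finset (Fin s → ℕ), (∀ x ∈ A, |(∑ i, ((x i : ℝ) + ξ i) ^ k) - t| < η) →
    (A.card : ℝ) < θ * t ^ ((s : ℝ) / k - 1)}

theorem Bd_meas2 {s : ℕ} (k : ℕ) (η θ : ℝ) :
    MeasurableSet {p : (Fin s → ℝ) × ℝ | p.2 ∈ Bd k η θ p.1} := by
  have e : {p : (Fin s → ℝ) × ℝ | p.2 ∈ Bd k η θ p.1} =
      {p | 1 ≤ p.2} ∩ ⋂ A : Finset (Fin s → ℕ), ((⋂ x ∈ A, {p | |(∑ i, ((x i : ℝ) + p.1 i) ^ k) - p.2| < η})ᶜ ∪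
        {p | (A.card : ℝ) < θ * p.2 ^ ((s : ℝ) / k - 1)}) := by
    ext p
    simp only [Bd, Set.mem_ofPred_eq, Set.mem_inter_iff, Set.mem_iInter, Set.mem_union, Set.mem_compl_iff]
    constructor
    · rintro ⟨h1, h2⟩
      refine ⟨h1, fun A => ?_⟩
      by_cases h3 : ∀ x ∈ A, |(∑ i, ((x i : ℝ) + p.1 i) ^ k) - p.2| < η
      · exact Or.inr (h2 A h3)
      · exact Or.inl h3
    · rintro ⟨h1, h2⟩
      refine ⟨h1, fun A h3 => ?_⟩
      rcases h2 A with h4 | h4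
      · exact absurd h3 h4
      · exact h4
  rw [e]
  refine (measurableSet_le measurable_const measurable_snd).inter (MeasurableSet.iInter fun A => MeasurableSet.union ?_ ?_)
  · refine (Finset.measurableSet_biInter A fun x _ => measurableSet_lt ?_ measurable_const).compl
    fun_prop
  · refine measurableSet_lt measurable_const ?_
    fun_prop

theorem Bd_meas {s : ℕ} (k : ℕ) (η θ : ℝ) (ξ : Fin s → ℝ) : MeasurableSet (Bd k η θ ξ) :=
  (measurable_prodMk_left (x := ξ)) (Bd_meas2 k η θ)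

theorem Small_Bd_meas {s : ℕ} (k : ℕ) (η θ δ : ℝ) :
    MeasurableSet {ξ : Fin s → ℝ | WD.Small (Bd k η θ ξ) δ} := by
  have e : {ξ : Fin s → ℝ | WD.Small (Bd k η θ ξ) δ} = ⋃ m0 : ℕ, ⋂ m : ℕ, ⋂ (_ : m0 ≤ m),
      {ξ | volume (Bd k η θ ξ ∩ Set.Icc ((2:ℝ) ^ m) (2 ^ (m + 1))) ≤
        ENNReal.ofReal (((2:ℝ) ^ m) ^ (1 - δ))} := by
    ext ξ
    simp [WD.Small, eventually_atTop]
  rw [e]
  refine MeasurableSet.iUnion (fun m0 => MeasurableSet.iInter (fun m => MeasurableSet.iInter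
    (fun _ => measurableSet_le ?_ measurable_const)))
  have h : MeasurableSet ({p : (Fin s → ℝ) × ℝ | p.2 ∈ Bd k η θ p.1} ∩
      {p | p.2 ∈ Set.Icc ((2:ℝ) ^ m) (2 ^ (m + 1))}) :=
    (Bd_meas2 k η θ).inter (measurable_snd measurableSet_Icc)
  exact measurable_measure_prodMk_left h

/-- the number of windows -/
noncomputable def NN (h η : ℝ) : ℕ := ⌊2 * η / h⌋₊ - 1

open Classical in
/-- the lower bound at one scale -/
theorem real_lower {k J s : ℕ} (hk : 1 ≤ k) (hρ : 1 ≤ (s : ℝ) / k) {ξ : Fin s → ℝ}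
    {h η τ δ d B : ℝ} (hh : 0 < h) (hδ0 : 0 < δ) (hδ : δ ≤ 1 / 4) (hhη : h ≤ δ * η) (hητ : η ≤ δ * τ)
    (hX : 2 * τ ≤ ((3 : ℝ) ^ J) ^ k)
    (hE : NN h η * E1 k J s h d ξ + ∑ i ∈ Finset.range (NN h η), ‖D2 k J h d ξ (τ - η + h + i * h)‖ ≤ B) :
    2 * (Vs k s * ((s : ℝ) / k)) * ((1 - δ) ^ ((s : ℝ) / k - 1) * (1 - 3 * δ / 2)) * (η * τ ^ ((s : ℝ) / k - 1)) - B ≤
      (((box J s).filter fun x => |sp k ξ x - τ| < η).card : ℝ) := by
  have hη : 0 < η := by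
    by_contra h1
    push Not at h1
    nlinarith
  have hτ : 0 < τ := by
    by_contra h1
    push Not at h1
    nlinarith
  set ρ : ℝ := (s : ℝ) / k with hρd
  have hV := Vs_pos hk s
  have hητ' : η ≤ τ / 4 := by nlinarith
  have hhη' : h ≤ η / 4 := by nlinarith
  -- the number of windows
  set F : ℕ := ⌊2 * η / h⌋₊ with hF
  have hF1 : (F : ℝ) ≤ 2 * η / h := Nat.floor_le (by positivity)
  have hF2 : 2 * η / h < F + 1 := Nat.lt_floor_add_one _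
  have hF3 : 8 ≤ 2 * η / h := by rw [le_div_iff₀ hh]; linarith
  have hF4 : (7 : ℝ) < F := by linarith
  have hF5 : 7 < F := by exact_mod_cast hF4
  set N : ℕ := NN h η with hNN
  have hN : F = N + 1 := by rw [hNN]; unfold NN; omega
  have hN1 : 1 ≤ N := by omega
  have hNF : (F : ℝ) = N + 1 := by rw [hN]; push_cast; ring
  rw [hNF] at hF1 hF2
  rw [le_div_iff₀ hh] at hF1
  rw [div_lt_iff₀ hh] at hF2
  have hN0 : (1 : ℝ) ≤ N := by exact_mod_cast hN1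
  have ht : 0 < τ - η + h := by linarith
  have h0 := windows2 k J s hh (τ - η + h) d N ξ
  have h1 := count_lower2 (k := k) (J := J) (s := s) hk hh ht hN1 (by nlinarith) ξ (h0.trans hE)
  -- the count
  have h2 : (((box J s).filter fun x => τ - η + h - h < sp k ξ x ∧ sp k ξ x < τ - η + h + N * h).card : ℝ) ≤
      (((box J s).filter fun x => |sp k ξ x - τ| < η).card : ℝ) := by
    exact Nat.cast_le.2 (Finset.card_le_card (Finset.monotone_filter_right _ fun x _ hx => by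
      rw [abs_lt]
      constructor
      · linarith [hx.1]
      · have := hx.2
        nlinarith))
  -- the main term
  have h3 := bern_lower (a := τ - η + h) (b := τ - η + h + (N - 1) * h) ht (by nlinarith) hρ
  have h4 : (τ * (1 - δ)) ^ (ρ - 1) ≤ (τ - η + h) ^ (ρ - 1) := by
    apply Real.rpow_le_rpow (mul_nonneg hτ.le (by linarith)) _ (by linarith)
    nlinarith
  rw [Real.mul_rpow hτ.le (by linarith)] at h4
  have h5 : 2 * η * (1 - 3 * δ / 2) ≤ (N - 1) * h := by nlinarith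
  have h6 : 0 ≤ (1 - δ) ^ (ρ - 1) := Real.rpow_nonneg (by linarith) _
  have h7 : 0 < τ ^ (ρ - 1) := Real.rpow_pos_of_pos hτ _
  have h8 : ρ * (τ ^ (ρ - 1) * (1 - δ) ^ (ρ - 1)) * (2 * η * (1 - 3 * δ / 2)) ≤
      ρ * (τ - η + h) ^ (ρ - 1) * (τ - η + h + (N - 1) * h - (τ - η + h)) := by
    have e1 : τ - η + h + (N - 1) * h - (τ - η + h) = (N - 1) * h := by ring
    rw [e1]
    apply mul_le_mul _ h5 _ _
    · exact mul_le_mul_of_nonneg_left h4 (by linarith)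
    · apply mul_nonneg (by linarith) (by linarith)
    · exact mul_nonneg (by linarith) (Real.rpow_nonneg ht.le _)
  have h9 := h8.trans h3
  have h10 := mul_le_mul_of_nonneg_left h9 hV.le
  calc 2 * (Vs k s * ρ) * ((1 - δ) ^ (ρ - 1) * (1 - 3 * δ / 2)) * (η * τ ^ (ρ - 1)) - B =
      Vs k s * (ρ * (τ ^ (ρ - 1) * (1 - δ) ^ (ρ - 1)) * (2 * η * (1 - 3 * δ / 2))) - B := by ring
    _ ≤ Vs k s * ((τ - η + h + (N - 1) * h) ^ ρ - (τ - η + h) ^ ρ) - B := by linarith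
    _ ≤ _ := h1.trans h2

/-- the measure of a set that meets every coset of the integers in few points -/
theorem vol_le_card {V : Set ℝ} (hV : MeasurableSet V) {a b : ℕ} (hab : a ≤ b) {C : ℝ}
    (h : ∀ o ∈ Set.Ioc (0:ℝ) 1, ∀ Z : Finset ℕ, (∀ n ∈ Z, (n:ℝ) + o ∈ V) → (Z.card : ℝ) ≤ C) :
    volume (V ∩ Set.Ioc (a:ℝ) b) ≤ ENNReal.ofReal C := by
  classical
  have hφ : Measurable (V.indicator fun _ => (1:ENNReal)) := measurable_const.indicator hV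
  have h1 := tileL (V.indicator fun _ => (1:ENNReal)) hφ a (b - a)
  rw [show a + (b - a) = b by omega] at h1
  have h2 : ∫⁻ v in Set.Ioc (a:ℝ) b, V.indicator (fun _ => (1:ENNReal)) v = volume (V ∩ Set.Ioc (a:ℝ) b) := by
    rw [lintegral_indicator hV, Measure.restrict_restrict hV, setLIntegral_const, one_mul]
  have h5 : ∫⁻ o in Set.Ioc (0:ℝ) 1, ∑ y ∈ Finset.Ico a b, V.indicator (fun _ => (1:ENNReal)) (y + o) =
      ∑ y ∈ Finset.Ico a b, ∫⁻ ξ in Set.Ioc (0:ℝ) 1, V.indicator (fun _ => (1:ENNReal)) (y + ξ) :=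
    lintegral_finsetSum _ (fun y _ => hφ.comp (by fun_prop : Measurable fun ξ : ℝ => (y:ℝ) + ξ))
  rw [← h2, ← h1, ← h5]
  have h3 : ∫⁻ o in Set.Ioc (0:ℝ) 1, ∑ y ∈ Finset.Ico a b, V.indicator (fun _ => (1:ENNReal)) (y + o) ≤
      ∫⁻ _ in Set.Ioc (0:ℝ) 1, ENNReal.ofReal C := by
    apply setLIntegral_mono measurable_const
    intro o ho
    have h4 : ∑ y ∈ Finset.Ico a b, V.indicator (fun _ => (1:ENNReal)) (y + o) =
        ((((Finset.Ico a b).filter fun y : ℕ => (y:ℝ) + o ∈ V).card : ℕ) : ENNReal) := by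
      rw [Finset.card_filter]
      push_cast
      apply Finset.sum_congr rfl
      intro y _
      by_cases hy : (y:ℝ) + o ∈ V
      · rw [Set.indicator_of_mem hy, if_pos hy]
      · rw [Set.indicator_of_notMem hy, if_neg hy]
    rw [h4, ← ENNReal.ofReal_natCast]
    apply ENNReal.ofReal_le_ofReal
    exact h o ho _ fun n hn => (Finset.mem_filter.1 hn).2
  refine h3.trans (le_of_eq ?_)
  rw [setLIntegral_const, Real.volume_Ioc]
  simp

/-- the scale belonging to `2 ^ m` -/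
def JJ (k m : ℕ) : ℕ := Nat.log (3 ^ k) (2 ^ (m + 2)) + 1

lemma JJ_bound {k : ℕ} (hk : 1 ≤ k) (m : ℕ) : (2:ℝ) ^ (m + 2) ≤ ((3:ℝ) ^ JJ k m) ^ k ∧
    ((3:ℝ) ^ JJ k m) ^ k ≤ 3 ^ k * 2 ^ (m + 2) := by
  have hb1 : 1 < 3 ^ k := Nat.one_lt_pow (by omega) (by norm_num)
  have h1 : (3 ^ k) ^ (JJ k m - 1) ≤ 2 ^ (m + 2) := Nat.pow_log_le_self _ (by positivity)
  have h2 : 2 ^ (m + 2) < (3 ^ k) ^ JJ k m := Nat.lt_pow_succ_log_self hb1 _
  have hcast : (((3 ^ k) ^ JJ k m : ℕ) : ℝ) = ((3 : ℝ) ^ JJ k m) ^ k := by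
    push_cast; rw [← pow_mul, ← pow_mul, mul_comm]
  constructor
  · rw [← hcast]
    exact_mod_cast h2.le
  · rw [← hcast]
    have h3 : (3 ^ k) ^ JJ k m ≤ 3 ^ k * 2 ^ (m + 2) := by
      have : (3 ^ k) ^ JJ k m = 3 ^ k * (3 ^ k) ^ (JJ k m - 1) := by
        rw [← pow_succ']; congr 1
      rw [this]
      exact Nat.mul_le_mul_left _ h1
    exact_mod_cast h3

lemma JJ_tendsto {k : ℕ} (hk : 1 ≤ k) : Tendsto (JJ k) atTop atTop := by
  rw [tendsto_atTop]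
  intro b
  have h3k : (1:ℝ) < (3:ℝ) ^ k := one_lt_pow₀ (by norm_num) (by omega)
  have h1 : Tendsto (fun m : ℕ => (2:ℝ) ^ (m + 2)) atTop atTop :=
    (tendsto_pow_atTop_atTop_of_one_lt (one_lt_two (α := ℝ))).comp (tendsto_add_atTop_nat 2)
  filter_upwards [h1.eventually_ge_atTop (((3:ℝ) ^ b) ^ k)] with m hm
  have h2 := hm.trans (JJ_bound hk m).1
  have h3 : (3:ℝ) ^ b ≤ 3 ^ JJ k m := le_of_pow_le_pow_left₀ (by omega) (by positivity) h2
  exact (pow_le_pow_iff_right₀ (by norm_num : (1:ℝ) < 3)).1 h3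

/-- **The basic estimate.** -/
theorem base {m r : ℕ} (hm : 1 ≤ m) (hr : m + 2 ≤ r) (hr2 : r + 1 ≤ 2 * (m + 2)) :
    ∀ᵐ ξ ∂(cube (r + 1)), ∀ η : ℝ, 0 < η → ∀ θ : ℝ, θ < 2 * η * (Vs (m + 2) (r + 1) * (((r + 1 : ℕ) : ℝ) / ((m + 2 : ℕ) : ℝ))) →
      ∀ δ : ℝ, δ < ((r + 1 : ℕ) : ℝ) / ((m + 2 : ℕ) : ℝ) - 1 → WD.Small (Bd (m + 2) η θ ξ) δ := by
  classical
  set k : ℕ := m + 2 with hkdef
  set s : ℕ := r + 1 with hsdef
  have hk1 : 1 ≤ k := by omega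
  have hk0 : (0:ℝ) < (k:ℝ) := by exact_mod_cast (by omega : 0 < k)
  have hks : (k:ℝ) ≤ s := by exact_mod_cast (by omega : k ≤ s)
  have hs2 : (s:ℝ) ≤ 2 * k := by exact_mod_cast (by omega : s ≤ 2 * k)
  set ρ : ℝ := (s:ℝ) / (k:ℝ) with hρd
  have hρ : 1 ≤ ρ := by rw [hρd, le_div_iff₀ hk0]; linarith
  have hE1 : ∀ᵐ ξ ∂(cube s), ∀ j : ℕ, ∀ᶠ J : ℕ in atTop,
      E1 k J s (((3 : ℝ) ^ J) ^ (-(1 / ((j : ℝ) + 1)))) (dd m J (((3 : ℝ) ^ J) ^ (-(1 / ((j : ℝ) + 1))))) ξ <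
      (((3 : ℝ) ^ J) ^ (-(1 / ((j : ℝ) + 1))) * ((3 : ℝ) ^ J) ^ ((r : ℝ) + 1 - (m + 2))) / ((J : ℝ) + 1) :=
    ae_all_iff.2 fun j => ae_E1 hm hr (1 / ((j : ℝ) + 1))
  have hE2 : ∀ᵐ ξ ∂(cube s), ∀ j : ℕ, ∀ᶠ J : ℕ in atTop,
      E2 k J s (((3 : ℝ) ^ J) ^ (-(1 / ((j : ℝ) + 1)))) (dd m J (((3 : ℝ) ^ J) ^ (-(1 / ((j : ℝ) + 1))))) ξ <
      ((J : ℝ) + 1) ^ 2 * ((2 * LK m J) ^ (2 * s) * ((3 : ℝ) ^ J) ^ s) :=
    ae_all_iff.2 fun j => ae_E2 (m := m) (s := s) (1 / ((j : ℝ) + 1))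
  filter_upwards [hE1, hE2] with ξ h1 h2 η hη θ hθ δ hδ
  -- the parameters
  set V : ℝ := Vs k s * ρ with hVd
  have hV0 : 0 < V := mul_pos (Vs_pos hk1 s) (by linarith)
  obtain ⟨j, hj⟩ := exists_nat_one_div_lt (show 0 < k * (ρ - 1 - δ) / 4 by
    have : 0 < ρ - 1 - δ := by linarith
    positivity)
  set ϑ : ℝ := 1 / ((j : ℝ) + 1) with hϑ
  have hϑ0 : 0 < ϑ := by positivity
  have h1j := h1 j
  have h2j := h2 j
  rw [← hϑ] at h1j h2j
  have hcast : ((r : ℝ) + 1 - (m + 2)) = ((s : ℝ) - (k : ℝ)) := by rw [hkdef, hsdef]; push_cast; ring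
  rw [hcast] at h1j
  set c : ℝ := (4 * (3:ℝ) ^ k) ^ (ρ - 1) with hc
  have hc0 : 0 < c := by positivity
  set ε : ℝ := 2 * V - θ / η with hε
  have hε0 : 0 < ε := by
    rw [hε, sub_pos, div_lt_iff₀ hη]
    linarith
  obtain ⟨δ₀, hδ₀0, hδ₀4, hlow, -⟩ := choose_delta V (2 * c) ρ hε0
  obtain ⟨CG, hCG0, hCG⟩ := poly_small m s hϑ0
  set ex : ℝ := (2 * (k : ℝ) - s + 3 * ϑ) / k with hex
  have hex0 : 0 ≤ ex := div_nonneg (by linarith) hk0.le
  have hex1 : ex < 1 - δ := by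
    rw [hex, div_lt_iff₀ hk0]
    have e1 : (k:ℝ) * (ρ - 1 - δ) = s - k - k * δ := by
      rw [hρd]; field_simp
    rw [e1] at hj
    linarith
  have hJt := JJ_tendsto hk1
  have hlim : Tendsto (fun J : ℕ => ((3 : ℝ) ^ J) ^ (-ϑ)) atTop (nhds 0) := by
    have h1 : Tendsto (fun J : ℕ => ((3 : ℝ) ^ (-ϑ)) ^ J) atTop (nhds 0) :=
      tendsto_pow_atTop_nhds_zero_of_lt_one (by positivity) (Real.rpow_lt_one_of_one_lt_of_neg (by norm_num) (by linarith))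
    exact h1.congr fun J => (X_pow J _).symm
  have hJ3 : ∀ᶠ J : ℕ in atTop, 1 / δ₀ ≤ (J:ℝ) := tendsto_natCast_atTop_atTop.eventually_ge_atTop _
  have hlim2 : Tendsto (fun n : ℕ => (2:ℝ) ^ n) atTop atTop := tendsto_pow_atTop_atTop_of_one_lt one_lt_two
  filter_upwards [hJt.eventually h1j, hJt.eventually h2j, hJt.eventually (hlim.eventually_lt_const (by positivity : 0 < δ₀ * η)),
    hJt.eventually hJ3, hlim2.eventually_ge_atTop (η / δ₀),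
    hlim2.eventually (const_le (C := δ₀⁻¹ ^ 2 * CG * (4 * (3:ℝ) ^ k) ^ ex) (by linarith : 0 < 1 - δ - ex))] with n e1 e2 e3 e4 e5 e6
  set J := JJ k n with hJ
  obtain ⟨b1, b2⟩ := JJ_bound hk1 n
  rw [← hJ] at b1 b2
  set X : ℝ := (3 : ℝ) ^ J with hX
  have hX0 : 0 < X := by positivity
  set h : ℝ := X ^ (-ϑ) with hh
  have hh0 : 0 < h := Real.rpow_pos_of_pos hX0 _
  have h2n : (0:ℝ) < 2 ^ n := by positivity
  set l : ℝ := δ₀ * (h * X ^ ((s:ℝ) - k)) with hl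
  have hl0 : 0 < l := by positivity
  have hE1J : E1 k J s h (dd m J h) ξ ≤ l := by
    refine e1.le.trans ?_
    have hJp : (0 : ℝ) < (J : ℝ) + 1 := by positivity
    rw [div_le_iff₀ hJp]
    have h3 : 1 ≤ δ₀ * ((J : ℝ) + 1) := by
      rw [div_le_iff₀ hδ₀0] at e4
      nlinarith
    have h4 : 0 ≤ h * X ^ ((s : ℝ) - k) := by positivity
    calc h * X ^ ((s : ℝ) - k) = 1 * (h * X ^ ((s : ℝ) - k)) := (one_mul _).symm
      _ ≤ (δ₀ * ((J : ℝ) + 1)) * (h * X ^ ((s : ℝ) - k)) := mul_le_mul_of_nonneg_right h3 h4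
      _ = _ := by rw [hl]; ring
  set N := NN h η with hN
  have hN1 : 1 ≤ N := by
    have h3 : 8 ≤ 2 * η / h := by
      rw [le_div_iff₀ hh0]
      nlinarith
    have h4 : 8 ≤ ⌊2 * η / h⌋₊ := Nat.le_floor (by exact_mod_cast h3)
    rw [hN]; unfold NN; omega
  have hN0 : (0:ℝ) < N := by exact_mod_cast hN1
  have hNh : (N:ℝ) * h ≤ 2 * η := by
    have h3 : (⌊2 * η / h⌋₊ : ℝ) ≤ 2 * η / h := Nat.floor_le (by positivity)
    have h4 : (N:ℝ) ≤ (⌊2 * η / h⌋₊ : ℝ) := by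
      have : N ≤ ⌊2 * η / h⌋₊ := by rw [hN]; unfold NN; omega
      exact_mod_cast this
    rw [← le_div_iff₀ hh0]
    exact h4.trans h3
  -- exceptional `t`
  have hbad : ∀ t ∈ Bd k η θ ξ ∩ Set.Icc ((2:ℝ) ^ n) (2 ^ (n + 1)),
      N * l ≤ ∑ i ∈ Finset.range N, ‖D2 k J h (dd m J h) ξ (t - η + h + i * h)‖ := by
    rintro t ⟨⟨ht0, hA⟩, ht1, ht2⟩
    by_contra hcon
    push Not at hcon
    have ht : 0 < t := by linarith
    have h3 := real_lower (k := k) (J := J) (s := s) (ξ := ξ) (h := h) (η := η) (τ := t) (δ := δ₀) (d := dd m J h)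
      (B := N * l + N * l) hk1 hρ hh0 hδ₀0 hδ₀4 e3.le (by
        rw [div_le_iff₀ hδ₀0] at e5
        nlinarith) (by
        have h4 : (2:ℝ) ^ (n + 2) = 2 * 2 ^ (n + 1) := by ring
        linarith) (add_le_add (mul_le_mul_of_nonneg_left hE1J hN0.le) hcon.le)
    have h4 := hA ((box J s).filter fun x => |sp k ξ x - t| < η) (fun x hx => (Finset.mem_filter.1 hx).2)
    have htp : 0 < t ^ (ρ - 1) := Real.rpow_pos_of_pos ht _
    have hXs : X ^ ((s : ℝ) - k) ≤ c * t ^ (ρ - 1) := by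
      have h5 : X ^ ((s : ℝ) - k) = (X ^ k) ^ (ρ - 1) := by
        rw [← Real.rpow_natCast X k, ← Real.rpow_mul hX0.le]
        congr 1
        rw [hρd]
        field_simp
      rw [h5, hc, ← Real.mul_rpow (by positivity) ht.le]
      apply Real.rpow_le_rpow (by positivity) _ (by linarith)
      refine b2.trans ?_
      have h6 : (2:ℝ) ^ (n + 2) = 4 * 2 ^ n := by ring
      rw [h6]
      have h7 : (3:ℝ) ^ k * (4 * 2 ^ n) = 4 * 3 ^ k * 2 ^ n := by ring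
      rw [h7]
      exact mul_le_mul_of_nonneg_left ht1 (by positivity)
    have h5 : N * l + N * l ≤ 2 * δ₀ * (2 * c) * (η * t ^ (ρ - 1)) := by
      calc N * l + N * l = 2 * (N * h) * (δ₀ * X ^ ((s : ℝ) - k)) := by rw [hl]; ring
        _ ≤ 2 * (2 * η) * (δ₀ * (c * t ^ (ρ - 1))) := by gcongr
        _ = _ := by ring
    have h6 : (2 * V - ε) * (η * t ^ (ρ - 1)) ≤
        (2 * V * ((1 - δ₀) ^ (ρ - 1) * (1 - 3 * δ₀ / 2)) - 2 * δ₀ * (2 * c)) * (η * t ^ (ρ - 1)) :=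
      mul_le_mul_of_nonneg_right hlow (by positivity)
    have h7 : (2 * V - ε) * (η * t ^ (ρ - 1)) = θ * t ^ (ρ - 1) := by
      rw [hε]; field_simp; ring
    linarith
  -- few exceptions in a coset
  have hcard : ∀ o ∈ Set.Ioc (0:ℝ) 1, ∀ Z : Finset ℕ, (∀ z ∈ Z, (z:ℝ) + o ∈ Bd k η θ ξ ∩ Set.Icc ((2:ℝ) ^ n) (2 ^ (n + 1))) →
      (Z.card : ℝ) ≤ ((2:ℝ) ^ n) ^ (1 - δ) := by
    intro o _ Z hZ
    have hh1 : h ≤ 1 := by
      rw [hh]
      exact Real.rpow_le_one_of_one_le_of_nonpos (one_le_pow₀ (by norm_num)) (by linarith)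
    have h3 : (Z.card : ℝ) * (N * l) ≤ ∑ z ∈ Z, ∑ i ∈ Finset.range N, ‖D2 k J h (dd m J h) ξ ((z:ℝ) + o - η + h + i * h)‖ := by
      have := Finset.card_nsmul_le_sum Z _ _ (fun z hz => hbad _ (hZ z hz))
      rwa [nsmul_eq_mul] at this
    have h4 : ∑ z ∈ Z, ∑ i ∈ Finset.range N, ‖D2 k J h (dd m J h) ξ ((z:ℝ) + o - η + h + i * h)‖ ≤
        N * ((l⁻¹ * E2 k J s h (dd m J h) ξ + l * Z.card) / 2) := by
      rw [Finset.sum_comm]
      have h5 : ∀ i ∈ Finset.range N, ∑ z ∈ Z, ‖D2 k J h (dd m J h) ξ ((z:ℝ) + o - η + h + i * h)‖ ≤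
          (l⁻¹ * E2 k J s h (dd m J h) ξ + l * Z.card) / 2 := by
        intro i _
        have h6 := dual k J hh0 hh1 (dd m J h) ξ Z (o - η + h + i * h) (inv_pos.2 hl0)
        rw [inv_inv] at h6
        refine le_trans (le_of_eq ?_) h6
        apply Finset.sum_congr rfl
        intro z _
        congr 2
        ring
      have h6 := Finset.sum_le_sum h5
      rwa [Finset.sum_const, Finset.card_range, nsmul_eq_mul] at h6
    have h5 : (Z.card : ℝ) * l ≤ (l⁻¹ * E2 k J s h (dd m J h) ξ + l * Z.card) / 2 := by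
      have h6 : (N : ℝ) * ((Z.card : ℝ) * l) ≤ N * ((l⁻¹ * E2 k J s h (dd m J h) ξ + l * Z.card) / 2) := by
        calc (N : ℝ) * ((Z.card : ℝ) * l) = (Z.card : ℝ) * (N * l) := by ring
          _ ≤ _ := h3.trans h4
      exact le_of_mul_le_mul_left h6 hN0
    have h6 : (Z.card : ℝ) ≤ E2 k J s h (dd m J h) ξ / l ^ 2 := by
      rw [le_div_iff₀ (by positivity)]
      have h7 : (Z.card : ℝ) * l ≤ l⁻¹ * E2 k J s h (dd m J h) ξ := by linarith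
      calc (Z.card : ℝ) * l ^ 2 = ((Z.card : ℝ) * l) * l := by ring
        _ ≤ (l⁻¹ * E2 k J s h (dd m J h) ξ) * l := mul_le_mul_of_nonneg_right h7 hl0.le
        _ = _ := by field_simp
    refine h6.trans ?_
    rw [div_le_iff₀ (by positivity)]
    refine e2.le.trans ?_
    have h7 : l ^ 2 = δ₀ ^ 2 * X ^ (2 * ((s : ℝ) - k - ϑ)) := by
      rw [hl, hh, mul_pow, ← Real.rpow_add hX0, ← Real.rpow_natCast (X ^ _), ← Real.rpow_mul hX0.le]
      congr 2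
      push_cast
      ring
    have h8 : X ^ (2 * (k : ℝ) - s + 3 * ϑ) * X ^ (2 * ((s : ℝ) - k - ϑ)) = X ^ ϑ * X ^ s := by
      rw [← Real.rpow_add hX0, ← Real.rpow_natCast X s, ← Real.rpow_add hX0]
      congr 1
      ring
    have h9 : X ^ (2 * (k : ℝ) - s + 3 * ϑ) ≤ (4 * (3 : ℝ) ^ k) ^ ex * ((2:ℝ) ^ n) ^ ex := by
      have h10 : X ^ (2 * (k : ℝ) - s + 3 * ϑ) = (X ^ k) ^ ex := by
        rw [← Real.rpow_natCast X k, ← Real.rpow_mul hX0.le]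
        congr 1
        rw [hex]
        field_simp
      rw [h10, ← Real.mul_rpow (by positivity) (by positivity)]
      apply Real.rpow_le_rpow (by positivity) _ hex0
      refine b2.trans (le_of_eq ?_)
      ring
    have h10 := hCG J
    have hJ0 : (0:ℝ) ≤ J := Nat.cast_nonneg _
    have hL0 : 0 < LK m J := lt_of_lt_of_le (by norm_num) (LK_ge m J)
    have h11 : ((J : ℝ) + 1) ^ 2 * (2 * LK m J) ^ (2 * s) ≤ CG * X ^ ϑ := by
      refine le_trans ?_ h10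
      apply mul_le_mul_of_nonneg_right _ (by positivity)
      exact pow_le_pow_right₀ (by linarith) (by norm_num)
    have h12 : ((2:ℝ) ^ n) ^ (1 - δ) = ((2:ℝ) ^ n) ^ (1 - δ - ex) * ((2:ℝ) ^ n) ^ ex := by
      rw [← Real.rpow_add h2n]
      congr 1
      ring
    have h13 : δ₀⁻¹ ^ 2 * CG * X ^ (2 * (k : ℝ) - s + 3 * ϑ) ≤ ((2:ℝ) ^ n) ^ (1 - δ) := by
      rw [h12]
      calc δ₀⁻¹ ^ 2 * CG * X ^ (2 * (k : ℝ) - s + 3 * ϑ) ≤ δ₀⁻¹ ^ 2 * CG * ((4 * (3 : ℝ) ^ k) ^ ex * ((2:ℝ) ^ n) ^ ex) := by gcongr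
        _ = (δ₀⁻¹ ^ 2 * CG * (4 * (3 : ℝ) ^ k) ^ ex) * ((2:ℝ) ^ n) ^ ex := by ring
        _ ≤ _ := mul_le_mul_of_nonneg_right e6 (by positivity)
    calc ((J : ℝ) + 1) ^ 2 * ((2 * LK m J) ^ (2 * s) * X ^ s) =
        (((J : ℝ) + 1) ^ 2 * (2 * LK m J) ^ (2 * s)) * X ^ s := by ring
      _ ≤ (CG * X ^ ϑ) * X ^ s := mul_le_mul_of_nonneg_right h11 (by positivity)
      _ = (δ₀⁻¹ * δ₀) ^ 2 * CG * (X ^ ϑ * X ^ s) := by rw [inv_mul_cancel₀ hδ₀0.ne']; ring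
      _ = (δ₀⁻¹ ^ 2 * CG * X ^ (2 * (k : ℝ) - s + 3 * ϑ)) * (δ₀ ^ 2 * X ^ (2 * ((s : ℝ) - k - ϑ))) := by
          rw [← h8]; ring
      _ ≤ ((2:ℝ) ^ n) ^ (1 - δ) * (δ₀ ^ 2 * X ^ (2 * ((s : ℝ) - k - ϑ))) := mul_le_mul_of_nonneg_right h13 (by positivity)
      _ = _ := by rw [h7]
  have hfin := vol_le_card ((Bd_meas k η θ ξ).inter measurableSet_Icc) (a := 2 ^ n - 1) (b := 2 ^ (n + 1)) (by
    have : 2 ^ n ≤ 2 ^ (n + 1) := Nat.pow_le_pow_right (by norm_num) (by omega)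
    omega) hcard
  refine le_trans (measure_mono ?_) hfin
  rintro t ⟨ht, ht1, ht2⟩
  refine ⟨⟨ht, ht1, ht2⟩, ?_, by push_cast; exact ht2⟩
  have h3 : ((2 ^ n - 1 : ℕ) : ℝ) < 2 ^ n := by
    rw [Nat.cast_sub (Nat.one_le_two_pow)]
    push_cast
    linarith
  linarith

end Pool.Agent.K7.H74.WL
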