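import Pool.Agent.K7.H74.WD.Dbl

set_option autoImplicit false

/-! Waring's problem with shifts: a positive proportion of `t - (y + β) ^ k` in a small set. -/

namespace Pool.Agent.K7.H74.WL

open MeasureTheory Set Filter Topology
open K7.H74.WD

theorem far_pairs (Y : Finset ℕ) (r : ℕ) (h : 4 * r ≤ Y.card) :
    Y.card ^ 2 ≤ 4 * ((Y ×ˢ Y).filter fun p => p.1 + r ≤ p.2).card := by
  classical
  set A := (Y ×ˢ Y).filter fun p => p.1 + r ≤ p.2 with hA
  set B := (Y ×ˢ Y).filter fun p => p.2 + r ≤ p.1 with hB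
  set C := (Y ×ˢ Y).filter fun p => p.1 < p.2 + r ∧ p.2 < p.1 + r with hC
  have hcov : Y ×ˢ Y ⊆ A ∪ B ∪ C := by
    rintro ⟨y, z⟩ hp
    simp only [Finset.mem_union, hA, hB, hC, Finset.mem_filter]
    by_cases h1 : y + r ≤ z
    · exact Or.inl (Or.inl ⟨hp, h1⟩)
    · by_cases h2 : z + r ≤ y
      · exact Or.inl (Or.inr ⟨hp, h2⟩)
      · exact Or.inr ⟨hp, by omega, by omega⟩
  have hAB : A.card = B.card := by
    apply Finset.card_bij (fun p _ => (p.2, p.1))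
    · rintro ⟨y, z⟩ hp
      simp only [hA, hB, Finset.mem_filter, Finset.mem_product] at hp ⊢
      exact ⟨⟨hp.1.2, hp.1.1⟩, hp.2⟩
    · rintro ⟨y, z⟩ _ ⟨y', z'⟩ _ h3
      simp only [Prod.mk.injEq] at h3 ⊢
      exact ⟨h3.2, h3.1⟩
    · rintro ⟨y, z⟩ hp
      simp only [hB, Finset.mem_filter, Finset.mem_product] at hp
      refine ⟨(z, y), ?_, rfl⟩
      simp only [hA, Finset.mem_filter, Finset.mem_product]
      exact ⟨⟨hp.1.2, hp.1.1⟩, hp.2⟩
  have hCc : C.card ≤ Y.card * (2 * r) := by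
    have h1 : C ⊆ Y.biUnion fun y => (Finset.Ico (y + 1 - r) (y + r)).image fun z => (y, z) := by
      rintro ⟨y, z⟩ hp
      simp only [hC, Finset.mem_filter, Finset.mem_product] at hp
      simp only [Finset.mem_biUnion, Finset.mem_image, Finset.mem_Ico, Prod.mk.injEq]
      exact ⟨y, hp.1.1, z, ⟨by omega, by omega⟩, rfl, rfl⟩
    refine (Finset.card_le_card h1).trans (Finset.card_biUnion_le_card_mul _ _ _ fun y _ => ?_)
    refine Finset.card_image_le.trans ?_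
    rw [Nat.card_Ico]
    omega
  have h1 : (Y ×ˢ Y).card ≤ A.card + B.card + C.card :=
    (Finset.card_le_card hcov).trans ((Finset.card_union_le _ _).trans (Nat.add_le_add_right (Finset.card_union_le _ _) _))
  rw [Finset.card_product] at h1
  nlinarith

/-- the numbers `t` for which at least `c t ^ (1 / k)` of the `t - (y + β) ^ k ≥ c t` are in `V` -/
def Vd (V : Set ℝ) (k : ℕ) (c β : ℝ) : Set ℝ :=
  {t | ∃ Y : Finset ℕ, (∀ y ∈ Y, c * t ≤ t - ((y:ℝ) + β) ^ k ∧ t - ((y:ℝ) + β) ^ k ∈ V) ∧ c * t ^ (1 / (k:ℝ)) ≤ Y.card}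

/-- a set at the scales `2 ^ m / 2 ^ L, ..., 2 ^ m` -/
theorem scales {V : Set ℝ} {δ' : ℝ} (hS : Small V δ') (L : ℕ) : ∃ C : ℝ, 0 < C ∧ ∀ᶠ m : ℕ in atTop,
    volume (V ∩ Icc ((2:ℝ) ^ m / 2 ^ L) (2 ^ (m + 1))) ≤ ENNReal.ofReal (C * ((2:ℝ) ^ m) ^ (1 - δ')) := by
  induction L with
  | zero =>
    refine ⟨1, one_pos, ?_⟩
    filter_upwards [hS] with m hm
    simpa using hm
  | succ L ih =>
    obtain ⟨C, hC, h⟩ := ih
    refine ⟨C + (1 / 2 ^ (L + 1)) ^ (1 - δ'), by positivity, ?_⟩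
    have h' : ∀ᶠ m : ℕ in atTop, volume (V ∩ Icc ((2:ℝ) ^ (m - (L + 1))) (2 ^ (m - (L + 1) + 1))) ≤
        ENNReal.ofReal (((2:ℝ) ^ (m - (L + 1))) ^ (1 - δ')) :=
      (tendsto_sub_atTop_nat (L + 1)).eventually hS
    filter_upwards [h, h', eventually_ge_atTop (L + 1)] with m h1 h2 h3
    have e2 : (2:ℝ) ^ (m - (L + 1)) = 2 ^ m / 2 ^ (L + 1) := by
      rw [eq_div_iff (by positivity), ← pow_add]
      congr 1
      omega
    have e3 : (2:ℝ) ^ (m - (L + 1) + 1) = 2 ^ m / 2 ^ L := by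
      rw [eq_div_iff (by positivity), ← pow_add]
      congr 1
      omega
    rw [e3, e2] at h2
    have hsub : V ∩ Icc ((2:ℝ) ^ m / 2 ^ (L + 1)) (2 ^ (m + 1)) ⊆
        (V ∩ Icc ((2:ℝ) ^ m / 2 ^ L) (2 ^ (m + 1))) ∪ (V ∩ Icc ((2:ℝ) ^ m / 2 ^ (L + 1)) (2 ^ m / 2 ^ L)) := by
      rintro t ⟨ht, ht1, ht2⟩
      rcases le_total t (2 ^ m / 2 ^ L) with h | h
      · exact Or.inr ⟨ht, ht1, h⟩
      · exact Or.inl ⟨ht, h, ht2⟩
    refine (measure_mono hsub).trans ((measure_union_le _ _).trans ((add_le_add h1 h2).trans ?_))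
    rw [← ENNReal.ofReal_add (by positivity) (by positivity)]
    apply ENNReal.ofReal_le_ofReal
    rw [add_mul]
    apply add_le_add le_rfl
    rw [← Real.mul_rpow (by positivity) (by positivity)]
    apply le_of_eq
    congr 1; ring

/-- the counting function of pairs -/
noncomputable def Fp (V : Set ℝ) (k n M : ℕ) (β : ℝ) : ENNReal :=
  ∑ h ∈ Finset.Ico n M, ∑ y ∈ Finset.Ico n M, ov V (((y:ℝ) + β + h) ^ k - ((y:ℝ) + β) ^ k)

theorem Fp_meas {V : Set ℝ} (hV : MeasurableSet V) (k n M : ℕ) : Measurable (Fp V k n M) := by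
  apply Finset.measurable_sum
  intro h _
  apply Finset.measurable_sum
  intro y _
  exact (ov_meas hV).comp (by fun_prop)

/-- the mean value -/
theorem Fp_mean {V : Set ℝ} (hV : MeasurableSet V) {k n M : ℕ} (hk : 2 ≤ k) (hn : 1 ≤ n) (hnM : n ≤ M) :
    ∫⁻ β in Ioc (0:ℝ) 1, Fp V k n M β ≤ ENNReal.ofReal ((M:ℝ) / (n:ℝ) ^ (k - 1)) * (volume V * volume V) := by
  obtain ⟨m, rfl⟩ : ∃ m, k = m + 2 := ⟨k - 2, by omega⟩
  have hn0 : (1:ℝ) ≤ n := by exact_mod_cast hn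
  have hone : ∀ h ∈ Finset.Ico n M, ∫⁻ β in Ioc (0:ℝ) 1, ∑ y ∈ Finset.Ico n M, ov V (((y:ℝ) + β + h) ^ (m + 2) - ((y:ℝ) + β) ^ (m + 2)) ≤
      ENNReal.ofReal (1 / (n:ℝ) ^ (m + 2 - 1)) * (volume V * volume V) := by
    intro h hh
    rw [Finset.mem_Ico] at hh
    have hh1 : (n:ℝ) ≤ h := by exact_mod_cast hh.1
    set G : ℝ → ℝ := fun v => (v + h) ^ (m + 2) - v ^ (m + 2) with hG
    have hGm : Measurable fun v : ℝ => ov V (G v) := (ov_meas hV).comp (by fun_prop)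
    have e1 : ∫⁻ β in Ioc (0:ℝ) 1, ∑ y ∈ Finset.Ico n M, ov V (((y:ℝ) + β + h) ^ (m + 2) - ((y:ℝ) + β) ^ (m + 2)) =
        ∫⁻ v in Ioc (n:ℝ) (M:ℝ), ov V (G v) := by
      rw [lintegral_finsetSum]
      · have h5 := tileL (fun v => ov V (G v)) hGm n (M - n)
        rw [show n + (M - n) = M by omega] at h5
        exact h5
      · intro y _
        exact (ov_meas hV).comp (by fun_prop)
    rw [e1]
    have h2 : ∫⁻ v in Ioc (n:ℝ) (M:ℝ), ov V (G v) ≤ ∫⁻ v in Icc (n:ℝ) (M:ℝ), ov V (G v) :=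
      lintegral_mono_set Ioc_subset_Icc_self
    refine h2.trans ?_
    have hd : ∀ v, HasDerivAt G (((m + 2 : ℕ) : ℝ) * (v + h) ^ (m + 1) - ((m + 2 : ℕ) : ℝ) * v ^ (m + 1)) v := by
      intro v
      have h3 : HasDerivAt (fun v : ℝ => (v + h) ^ (m + 2)) (((m + 2 : ℕ) : ℝ) * (v + h) ^ (m + 1)) v := by
        have := ((hasDerivAt_id v).add_const (h:ℝ)).fun_pow (m + 2)
        simpa using this
      exact h3.sub (by simpa using hasDerivAt_pow (m + 2) v)
    have h3 := ov_avg hV hd (a := (n:ℝ)) (b := (M:ℝ)) (g := (n:ℝ) ^ (m + 1)) (by positivity) (fun v hv => by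
      have hv0 : (n:ℝ) ≤ v := hv.1
      have hv1 : 0 ≤ v := by linarith
      have h4 := pow_add_ge (x := v) (d := h) hv1 (by linarith) m
      have h5 : (n:ℝ) ^ m ≤ v ^ m := pow_le_pow_left₀ (by linarith) hv0 m
      have h6 : (n:ℝ) ^ (m + 1) ≤ h * v ^ m := by
        rw [pow_succ, mul_comm]
        exact mul_le_mul hh1 h5 (by positivity) (by linarith)
      have hm : (0:ℝ) ≤ m := Nat.cast_nonneg m
      have h7 : 0 ≤ (h:ℝ) * v ^ m := by positivity
      have h8 : (n:ℝ) ^ (m + 1) ≤ (v + h) ^ (m + 1) - v ^ (m + 1) := by nlinarith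
      have h9 : 0 ≤ (v + h) ^ (m + 1) - v ^ (m + 1) := le_trans (by positivity) h8
      push_cast
      nlinarith)
    exact h3
  have e0 : ∫⁻ β in Ioc (0:ℝ) 1, Fp V (m + 2) n M β = ∑ h ∈ Finset.Ico n M, ∫⁻ β in Ioc (0:ℝ) 1,
      ∑ y ∈ Finset.Ico n M, ov V (((y:ℝ) + β + h) ^ (m + 2) - ((y:ℝ) + β) ^ (m + 2)) := by
    unfold Fp
    rw [lintegral_finsetSum]
    intro h _
    apply Finset.measurable_sum
    intro y _
    exact (ov_meas hV).comp (by fun_prop)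
  rw [e0]
  refine (Finset.sum_le_sum hone).trans ?_
  rw [Finset.sum_const, nsmul_eq_mul, Nat.card_Ico, ← mul_assoc]
  gcongr
  rw [← ENNReal.ofReal_natCast, ← ENNReal.ofReal_mul (Nat.cast_nonneg _)]
  apply ENNReal.ofReal_le_ofReal
  rw [mul_one_div]
  gcongr
  omega

open Classical in
/-- many pairs for every element of `B` -/
theorem dens_one {V : Set ℝ} (hV : MeasurableSet V) {k n M : ℕ} {β : ℝ} {B : Set ℝ} {a : ℝ}
    (hB : ∀ t ∈ B, a ≤ (((Finset.Ico n M ×ˢ Finset.Ico n M).filter fun p : ℕ × ℕ =>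
      t - ((p.2:ℝ) + β) ^ k ∈ V ∧ t - ((p.2:ℝ) + β + p.1) ^ k ∈ V).card : ℝ)) :
    ENNReal.ofReal a * volume B ≤ Fp V k n M β := by
  set S : ℕ × ℕ → Set ℝ := fun p => {t | t - ((p.2:ℝ) + β) ^ k ∈ V ∧ t - ((p.2:ℝ) + β + p.1) ^ k ∈ V} with hS
  have hSm : ∀ p, MeasurableSet (S p) := fun p =>
    ((by fun_prop : Measurable fun t : ℝ => t - ((p.2:ℝ) + β) ^ k) hV).inter
      ((by fun_prop : Measurable fun t : ℝ => t - ((p.2:ℝ) + β + p.1) ^ k) hV)
  set N : ℝ → ENNReal := fun t => ∑ p ∈ Finset.Ico n M ×ˢ Finset.Ico n M, (S p).indicator (fun _ => (1:ENNReal)) t with hN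
  have hNm : Measurable N := by
    apply Finset.measurable_sum
    intro p _
    exact measurable_one.indicator (hSm p)
  have hint : ∫⁻ t, N t = Fp V k n M β := by
    show ∫⁻ t, ∑ p ∈ Finset.Ico n M ×ˢ Finset.Ico n M, (S p).indicator (fun _ => (1:ENNReal)) t = _
    rw [lintegral_finsetSum _ (fun p _ => (measurable_const.indicator (hSm p) :
      Measurable ((S p).indicator fun _ => (1:ENNReal)))), Finset.sum_product]
    unfold Fp
    apply Finset.sum_congr rfl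
    intro h _
    apply Finset.sum_congr rfl
    intro y _
    rw [lintegral_indicator (hSm _), setLIntegral_const, one_mul, ← ov_shift]
  have hle : ∀ t ∈ B, ENNReal.ofReal a ≤ N t := by
    intro t ht
    have h1 := hB t ht
    have h2 : N t = ((((Finset.Ico n M ×ˢ Finset.Ico n M).filter fun p : ℕ × ℕ =>
      t - ((p.2:ℝ) + β) ^ k ∈ V ∧ t - ((p.2:ℝ) + β + p.1) ^ k ∈ V).card : ℕ) : ENNReal) := by
      rw [Finset.card_filter]
      push_cast
      rw [hN]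
      apply Finset.sum_congr rfl
      intro p _
      by_cases hp : t ∈ S p
      · rw [Set.indicator_of_mem hp]
        exact (if_pos hp).symm
      · rw [Set.indicator_of_notMem hp]
        exact (if_neg hp).symm
    rw [h2, ← ENNReal.ofReal_natCast]
    exact ENNReal.ofReal_le_ofReal h1
  calc ENNReal.ofReal a * volume B ≤ ENNReal.ofReal a * volume {t | ENNReal.ofReal a ≤ N t} := by
        gcongr
        exact hle
    _ ≤ ∫⁻ t, N t := mul_meas_ge_le_lintegral hNm _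
    _ = _ := hint

/-- **One more variable**, with a positive proportion of exceptions. -/
theorem dens {V : Set ℝ} (hV : MeasurableSet V) {k : ℕ} (hk : 2 ≤ k) {δ' δ : ℝ} (hS : Small V δ') (hδ : δ < 2 * δ')
    {c : ℝ} (hc : 0 < c) (hc1 : c ≤ 1) :
    ∀ᵐ β ∂(volume.restrict (Ioc (0:ℝ) 1)), Small (Vd V k c β) δ := by
  classical
  have hk0 : (0:ℝ) < k := by exact_mod_cast (by omega : 0 < k)
  obtain ⟨L, hL⟩ : ∃ L : ℕ, 1 / (2:ℝ) ^ L ≤ c := by
    obtain ⟨L, hL⟩ := exists_pow_lt_of_lt_one hc (by norm_num : (1 / 2 : ℝ) < 1)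
    exact ⟨L, by rw [← one_div_pow]; exact hL.le⟩
  obtain ⟨C₁, hC₁0, hVm⟩ := scales hS L
  set T : ℕ → ℝ := fun m => ((2:ℝ) ^ m) ^ (1 / (k:ℝ)) with hT
  have hT0 : ∀ m, 0 < T m := fun m => Real.rpow_pos_of_pos (by positivity) _
  have hTk : ∀ m, T m ^ k = 2 ^ m := by
    intro m
    rw [hT, ← Real.rpow_natCast, ← Real.rpow_mul (by positivity), one_div_mul_cancel hk0.ne', Real.rpow_one]
  have hTt : Tendsto T atTop atTop :=
    (tendsto_rpow_atTop (by positivity : 0 < 1 / (k:ℝ))).comp (tendsto_pow_atTop_atTop_of_one_lt (one_lt_two (α := ℝ)))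
  set n : ℕ → ℕ := fun m => ⌊c * T m / 8⌋₊ with hn
  set M : ℕ → ℕ := fun m => ⌊2 * T m⌋₊ + 1 with hM
  have hnT : ∀ m, (n m : ℝ) ≤ c * T m / 8 := fun m => Nat.floor_le (by have := hT0 m; positivity)
  have hbig : ∀ᶠ m : ℕ in atTop, 16 / c ≤ T m ∧ 1 ≤ T m := (hTt.eventually_ge_atTop _).and (hTt.eventually_ge_atTop _)
  have hn16 : ∀ᶠ m : ℕ in atTop, 1 ≤ n m ∧ c * T m / 16 ≤ n m := by
    filter_upwards [hbig] with m hm
    have h1 : c * T m / 8 < n m + 1 := Nat.lt_floor_add_one _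
    have h2 : 16 ≤ c * T m := by
      have := hm.1
      rw [div_le_iff₀ hc] at this
      linarith
    have h3 : c * T m / 16 ≤ n m := by linarith
    refine ⟨?_, h3⟩
    have : (0:ℝ) < n m := by linarith
    exact_mod_cast this
  have hM4 : ∀ᶠ m : ℕ in atTop, (M m : ℝ) ≤ 3 * T m ∧ n m ≤ M m := by
    filter_upwards [hbig] with m hm
    have h1 : (⌊2 * T m⌋₊ : ℝ) ≤ 2 * T m := Nat.floor_le (by have := hT0 m; positivity)
    refine ⟨?_, ?_⟩
    · rw [hM]
      push_cast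
      linarith [hm.2]
    · rw [hM, hn]
      have h2 : c * T m / 8 ≤ 2 * T m := by
        have := hT0 m
        nlinarith
      have := Nat.floor_le_floor h2
      simp only
      omega
  set e : ℝ := 2 * δ' - δ with he
  have he0 : 0 < e := by linarith
  set Vm : ℕ → Set ℝ := fun m => V ∩ Icc ((2:ℝ) ^ m / 2 ^ L) (2 ^ (m + 1)) with hVmdef
  have hVmm : ∀ m, MeasurableSet (Vm m) := fun m => hV.inter measurableSet_Icc
  set C₂ : ℝ := 3 * (16 / c) ^ (k - 1) * C₁ ^ 2 * (16 / c ^ 2) with hC₂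
  have hC₂0 : 0 < C₂ := by positivity
  set lam : ℕ → ℝ := fun m => (c * T m) ^ 2 / 16 * ((2:ℝ) ^ m) ^ (1 - δ) with hlam
  have hlam0 : ∀ m, 0 < lam m := fun m => by
    have := hT0 m
    have : (0:ℝ) < ((2:ℝ) ^ m) ^ (1 - δ) := Real.rpow_pos_of_pos (by positivity) _
    positivity
  have hbad : ∀ᶠ m : ℕ in atTop, (volume.restrict (Ioc (0:ℝ) 1)) {β : ℝ | ENNReal.ofReal (lam m) ≤ Fp (Vm m) k (n m) (M m) β} ≤
      ENNReal.ofReal (C₂ * ((2:ℝ) ^ m) ^ (-e)) := by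
    filter_upwards [hn16, hM4, hVm] with m h1 h2 h3
    have h2m : (0:ℝ) < 2 ^ m := by positivity
    have hn1 : (1:ℝ) ≤ n m := by exact_mod_cast h1.1
    have hT0m := hT0 m
    have hne : ENNReal.ofReal (lam m) ≠ 0 := (ENNReal.ofReal_pos.mpr (hlam0 m)).ne'
    refine (meas_ge_le_lintegral_div (Fp_meas (hVmm m) k (n m) (M m)).aemeasurable hne ENNReal.ofReal_ne_top).trans ?_
    rw [ENNReal.div_le_iff hne ENNReal.ofReal_ne_top]
    refine (Fp_mean (hVmm m) hk h1.1 h2.2).trans ?_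
    calc ENNReal.ofReal ((M m : ℝ) / (n m : ℝ) ^ (k - 1)) * (volume (Vm m) * volume (Vm m))
        ≤ ENNReal.ofReal ((M m : ℝ) / (n m : ℝ) ^ (k - 1)) * (ENNReal.ofReal (C₁ * ((2:ℝ) ^ m) ^ (1 - δ')) *
          ENNReal.ofReal (C₁ * ((2:ℝ) ^ m) ^ (1 - δ'))) := by
          gcongr
      _ = ENNReal.ofReal ((M m : ℝ) / (n m : ℝ) ^ (k - 1) * (C₁ * ((2:ℝ) ^ m) ^ (1 - δ') * (C₁ * ((2:ℝ) ^ m) ^ (1 - δ')))) := by
          rw [← ENNReal.ofReal_mul (by positivity), ← ENNReal.ofReal_mul (by positivity)]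
      _ ≤ ENNReal.ofReal (C₂ * ((2:ℝ) ^ m) ^ (-e) * lam m) := by
          apply ENNReal.ofReal_le_ofReal
          have e1 : ((2:ℝ) ^ m) ^ (1 - δ') * ((2:ℝ) ^ m) ^ (1 - δ') =
              ((2:ℝ) ^ m) ^ (-e) * ((2:ℝ) ^ m) ^ (1 - δ) * 2 ^ m := by
            rw [← Real.rpow_add h2m, ← Real.rpow_add h2m]
            nth_rewrite 3 [← Real.rpow_one ((2:ℝ) ^ m)]
            rw [← Real.rpow_add h2m]
            congr 1
            rw [he]; ring
          have e2 : (M m : ℝ) / (n m : ℝ) ^ (k - 1) ≤ 3 * T m / (c * T m / 16) ^ (k - 1) := by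
            apply div_le_div₀ (by positivity) h2.1 (by positivity)
            exact pow_le_pow_left₀ (by positivity) h1.2 _
          have e3 : 3 * T m / (c * T m / 16) ^ (k - 1) = 3 * (16 / c) ^ (k - 1) * T m ^ 2 / 2 ^ m := by
            rw [← hTk m]
            obtain ⟨j, hj⟩ : ∃ j, k = j + 1 := ⟨k - 1, by omega⟩
            rw [hj, Nat.add_sub_cancel, div_pow, mul_pow, div_pow]
            field_simp
            ring
          rw [e3] at e2
          set R : ℝ := ((2:ℝ) ^ m) ^ (-e) * ((2:ℝ) ^ m) ^ (1 - δ) with hR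
          have hR0 : 0 < R := by positivity
          calc (M m : ℝ) / (n m : ℝ) ^ (k - 1) * (C₁ * ((2:ℝ) ^ m) ^ (1 - δ') * (C₁ * ((2:ℝ) ^ m) ^ (1 - δ'))) =
              (M m : ℝ) / (n m : ℝ) ^ (k - 1) * (C₁ ^ 2 * (((2:ℝ) ^ m) ^ (1 - δ') * ((2:ℝ) ^ m) ^ (1 - δ'))) := by ring
            _ = (M m : ℝ) / (n m : ℝ) ^ (k - 1) * (C₁ ^ 2 * (R * 2 ^ m)) := by rw [e1]
            _ ≤ (3 * (16 / c) ^ (k - 1) * T m ^ 2 / 2 ^ m) * (C₁ ^ 2 * (R * 2 ^ m)) := by gcongr
            _ = C₂ * ((2:ℝ) ^ m) ^ (-e) * lam m := by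
                rw [hC₂, hlam, hR]
                field_simp
      _ = _ := by
          rw [ENNReal.ofReal_mul (by positivity)]
  -- Borel–Cantelli
  have hsum : ∃ m0 : ℕ, ∑' m : ℕ, (volume.restrict (Ioc (0:ℝ) 1)) {β : ℝ |
      ENNReal.ofReal (lam (m + m0)) ≤ Fp (Vm (m + m0)) k (n (m + m0)) (M (m + m0)) β} ≠ ⊤ := by
    obtain ⟨m0, hm0⟩ := eventually_atTop.mp hbad
    refine ⟨m0, ?_⟩
    have h1 : ∀ m : ℕ, (volume.restrict (Ioc (0:ℝ) 1)) {β : ℝ |
        ENNReal.ofReal (lam (m + m0)) ≤ Fp (Vm (m + m0)) k (n (m + m0)) (M (m + m0)) β} ≤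
        ENNReal.ofReal (C₂ * ((2:ℝ) ^ (-e)) ^ m0 * ((2:ℝ) ^ (-e)) ^ m) := by
      intro m
      refine (hm0 (m + m0) (by omega)).trans (le_of_eq ?_)
      congr 1
      have e1 : ((2:ℝ) ^ (m + m0)) ^ (-e) = ((2:ℝ) ^ (-e)) ^ (m + m0) := by
        rw [← Real.rpow_natCast 2 (m + m0), ← Real.rpow_mul (by norm_num),
          ← Real.rpow_natCast ((2:ℝ) ^ (-e)) (m + m0), ← Real.rpow_mul (by norm_num)]
        congr 1; ring
      rw [e1, pow_add]; ring
    refine ne_top_of_le_ne_top ?_ (ENNReal.tsum_le_tsum h1)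
    have hr1 : (2:ℝ) ^ (-e) < 1 := Real.rpow_lt_one_of_one_lt_of_neg one_lt_two (by linarith)
    have hs : Summable (fun m : ℕ => C₂ * ((2:ℝ) ^ (-e)) ^ m0 * ((2:ℝ) ^ (-e)) ^ m) :=
      (summable_geometric_of_lt_one (by positivity) hr1).mul_left _
    exact hs.tsum_ofReal_ne_top
  obtain ⟨m0, hm0⟩ := hsum
  filter_upwards [ae_eventually_notMem hm0, ae_restrict_mem measurableSet_Ioc] with β hβ hβ1
  obtain ⟨m1, hm1⟩ := eventually_atTop.mp hβ
  filter_upwards [hn16, hM4, eventually_ge_atTop (m1 + m0)] with m h1 h2 hm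
  have h3 := hm1 (m - m0) (by omega)
  rw [Nat.sub_add_cancel (by omega)] at h3
  have h4 : Fp (Vm m) k (n m) (M m) β < ENNReal.ofReal (lam m) := by
    by_contra hcon
    push Not at hcon
    exact h3 hcon
  have h2m : (0:ℝ) < 2 ^ m := by positivity
  have hT0m := hT0 m
  have hβ0 := hβ1.1
  have ha : 0 < (c * T m) ^ 2 / 16 := by positivity
  have h5 := dens_one (hVmm m) (k := k) (n := n m) (M := M m) (β := β) (B := Vd V k c β ∩ Icc ((2:ℝ) ^ m) (2 ^ (m + 1)))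
    (a := (c * T m) ^ 2 / 16) (by
      rintro t ⟨⟨Y, hY, hYc⟩, ht1, ht2⟩
      have ht0 : 0 < t := by linarith
      have hTt1 : T m ≤ t ^ (1 / (k:ℝ)) := Real.rpow_le_rpow (by positivity) ht1 (by positivity)
      have hYc2 : c * T m ≤ Y.card := (mul_le_mul_of_nonneg_left hTt1 hc.le).trans hYc
      -- the elements of Y
      have hmem : ∀ y ∈ Y, t - ((y:ℝ) + β) ^ k ∈ Vm m ∧ y < M m := by
        intro y hy
        obtain ⟨h6, h7⟩ := hY y hy
        have h8 : (0:ℝ) ≤ ((y:ℝ) + β) ^ k := by positivity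
        refine ⟨⟨h7, ?_, by linarith⟩, ?_⟩
        · refine le_trans ?_ h6
          have h9 : (2:ℝ) ^ m / 2 ^ L = 1 / 2 ^ L * 2 ^ m := by ring
          rw [h9]
          exact mul_le_mul hL ht1 (by positivity) hc.le
        · have h9 : ((y:ℝ) + β) ^ k ≤ (2 * T m) ^ k := by
            rw [mul_pow, hTk]
            have h10 : (2:ℝ) ≤ 2 ^ k := le_self_pow₀ (by norm_num) (by omega)
            have h11 : 0 < c * t := by positivity
            have h12 : (2:ℝ) ^ (m + 1) = 2 * 2 ^ m := by ring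
            nlinarith
          have h10 : (y:ℝ) + β ≤ 2 * T m := le_of_pow_le_pow_left₀ (by omega) (by positivity) h9
          have h11 : y ≤ ⌊2 * T m⌋₊ := Nat.le_floor (by linarith)
          rw [hM]
          simp only
          omega
      set Y' := Y.filter fun y => n m ≤ y with hY'
      have hY'c : Y.card ≤ Y'.card + n m := by
        have h6 : Y ⊆ Y' ∪ Finset.range (n m) := by
          intro y hy
          rw [Finset.mem_union, hY', Finset.mem_filter, Finset.mem_range]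
          by_cases h7 : n m ≤ y
          · exact Or.inl ⟨hy, h7⟩
          · exact Or.inr (by omega)
        have h7 := (Finset.card_le_card h6).trans (Finset.card_union_le _ _)
        rwa [Finset.card_range] at h7
      have hY'c2 : 7 * (c * T m) / 8 ≤ Y'.card := by
        have h6 : (Y.card : ℝ) ≤ Y'.card + n m := by exact_mod_cast hY'c
        have := hnT m
        linarith
      have h4n : 4 * n m ≤ Y'.card := by
        have h6 : (4:ℝ) * n m ≤ Y'.card := by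
          have := hnT m
          have : 0 < c * T m := by positivity
          linarith
        exact_mod_cast h6
      have h6 := far_pairs Y' (n m) h4n
      have h7 : ((Y' ×ˢ Y').filter fun p => p.1 + n m ≤ p.2).card ≤
          ((Finset.Ico (n m) (M m) ×ˢ Finset.Ico (n m) (M m)).filter fun p : ℕ × ℕ =>
            t - ((p.2:ℝ) + β) ^ k ∈ Vm m ∧ t - ((p.2:ℝ) + β + p.1) ^ k ∈ Vm m).card := by
        apply Finset.card_le_card_of_injOn (fun p => (p.2 - p.1, p.1))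
        · rintro ⟨y, z⟩ hp
          simp only [Finset.coe_filter, Finset.mem_product, Set.mem_ofPred_eq] at hp ⊢
          obtain ⟨⟨hy, hz⟩, hyz⟩ := hp
          rw [hY', Finset.mem_filter] at hy hz
          obtain ⟨hy1, hy2⟩ := hmem y hy.1
          obtain ⟨hz1, hz2⟩ := hmem z hz.1
          refine ⟨⟨Finset.mem_Ico.2 ⟨by omega, by omega⟩, Finset.mem_Ico.2 ⟨hy.2, hy2⟩⟩, hy1, ?_⟩
          have e1 : (y:ℝ) + β + ((z - y : ℕ) : ℝ) = (z:ℝ) + β := by
            rw [Nat.cast_sub (by omega)]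
            ring
          rw [e1]
          exact hz1
        · rintro ⟨y, z⟩ hp ⟨y', z'⟩ hp' h8
          simp only [Finset.coe_filter, Finset.mem_product, Set.mem_ofPred_eq] at hp hp'
          simp only [Prod.mk.injEq] at h8 ⊢
          omega
      have h8 : ((Y'.card : ℝ)) ^ 2 ≤ 4 * ((((Finset.Ico (n m) (M m) ×ˢ Finset.Ico (n m) (M m)).filter fun p : ℕ × ℕ =>
            t - ((p.2:ℝ) + β) ^ k ∈ Vm m ∧ t - ((p.2:ℝ) + β + p.1) ^ k ∈ Vm m).card : ℕ) : ℝ) := by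
        exact_mod_cast h6.trans (Nat.mul_le_mul_left 4 h7)
      have h9 : (7 * (c * T m) / 8) ^ 2 ≤ (Y'.card : ℝ) ^ 2 := pow_le_pow_left₀ (by positivity) hY'c2 2
      have h10 : (7 * (c * T m) / 8) ^ 2 = 49 / 64 * (c * T m) ^ 2 := by ring
      have h11 := sq_nonneg (c * T m)
      rw [h10] at h9
      have h12 : (c * T m) ^ 2 / 16 ≤ ((((Finset.Ico (n m) (M m) ×ˢ Finset.Ico (n m) (M m)).filter fun p : ℕ × ℕ =>
            t - ((p.2:ℝ) + β) ^ k ∈ Vm m ∧ t - ((p.2:ℝ) + β + p.1) ^ k ∈ Vm m).card : ℕ) : ℝ) := by linarith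
      convert h12)
  have h6 : ENNReal.ofReal ((c * T m) ^ 2 / 16) * volume (Vd V k c β ∩ Icc ((2:ℝ) ^ m) (2 ^ (m + 1))) ≤
      ENNReal.ofReal ((c * T m) ^ 2 / 16) * ENNReal.ofReal (((2:ℝ) ^ m) ^ (1 - δ)) := by
    rw [← ENNReal.ofReal_mul ha.le]
    exact h5.trans h4.le
  exact (ENNReal.mul_le_mul_iff_right (ENNReal.ofReal_pos.2 ha).ne' ENNReal.ofReal_ne_top).1 h6

end Pool.Agent.K7.H74.WL
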