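import Pool.Agent.K7.H74.WL.Ix
import Pool.Agent.K7.H74.WS.SlH

set_option autoImplicit false

/-! Waring's problem with shifts: natural numbers with few representations. -/

namespace Pool.Agent.K7.H74.WL

open MeasureTheory Filter Topology Finset
open K7.H74.WD K7.H74.WS

/-- a finite set of solutions near `n + 1 / 2` -/
theorem card_le_rn {k s : ℕ} (hk : 1 ≤ k) {ξ : Fin s → ℝ} (hξ : ∀ i, 0 ≤ ξ i) {n : ℕ} (hn : 1 ≤ n) {A : Finset (Fin s → ℕ)}
    (hA : ∀ x ∈ A, |(∑ i, ((x i : ℝ) + ξ i) ^ k) - ((n : ℝ) + 1 / 2)| < 1 / 2) : A.card ≤ rn k ξ n := by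
  refine le_trans ?_ (rn_between hk hξ hn (e := 1) one_pos).1
  unfold cnt
  have h1 : (A : Set (Fin s → ℕ)) ⊆ {x : Fin s → ℕ | |(∑ i, ((x i : ℝ) + ξ i) ^ k) - ((n : ℝ) + 1 / 2)| < 1 / 2} := fun x hx => hA x hx
  have h2 := Set.ncard_le_ncard h1 (cnt_finite hk hξ _ _)
  rw [Set.ncard_coe_finset] at h2
  exact h2

/-- a number with few representations gives an interval of bad real numbers -/
theorem bad_interval {k s : ℕ} (hk : 1 ≤ k) (hρ : 1 ≤ (s : ℝ) / (k : ℝ)) {ξ : Fin s → ℝ} (hξ : ∀ i, 0 ≤ ξ i) {n : ℕ} (hn : 1 ≤ n)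
    {ω θ : ℝ} (hω : 0 < ω) (hω1 : ω ≤ 1 / 4) (hθ : 0 ≤ θ) (hb : (rn k ξ n : ℝ) < θ * (n:ℝ) ^ ((s : ℝ) / (k : ℝ) - 1)) :
    Set.Icc ((n:ℝ) + 1 / 2 - ω) ((n:ℝ) + 1 / 2 + ω) ⊆ Bd k (1 / 2 - ω) θ ξ := by
  rintro t ⟨ht1, ht2⟩
  have hn1 : (1:ℝ) ≤ n := by exact_mod_cast hn
  refine ⟨by linarith, fun A hA => ?_⟩
  have h1 : A.card ≤ rn k ξ n := card_le_rn hk hξ hn fun x hx => by
    have h2 := abs_lt.1 (hA x hx)
    rw [abs_lt]
    constructor
    · linarith [h2.1]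
    · linarith [h2.2]
  have h2 : (A.card : ℝ) ≤ rn k ξ n := by exact_mod_cast h1
  have h3 : (n:ℝ) ^ ((s : ℝ) / (k : ℝ) - 1) ≤ t ^ ((s : ℝ) / (k : ℝ) - 1) :=
    Real.rpow_le_rpow (by linarith) (by linarith) (by linarith)
  have h4 := mul_le_mul_of_nonneg_left h3 hθ
  linarith

/-- the number of such numbers in a dyadic interval -/
theorem bad_dyadic {k s : ℕ} (hk : 1 ≤ k) (hρ : 1 ≤ (s : ℝ) / (k : ℝ)) {ξ : Fin s → ℝ} (hξ : ∀ i, 0 ≤ ξ i)
    {ω θ : ℝ} (hω : 0 < ω) (hω1 : ω ≤ 1 / 4) (hθ : 0 ≤ θ) {m : ℕ} {C : ℝ} (hC : 0 ≤ C)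
    (hS : volume (Bd k (1 / 2 - ω) θ ξ ∩ Set.Icc ((2:ℝ) ^ m) (2 ^ (m + 1))) ≤ ENNReal.ofReal C) (Z : Finset ℕ)
    (hZ : ∀ n ∈ Z, 2 ^ m ≤ n ∧ n < 2 ^ (m + 1) ∧ (rn k ξ n : ℝ) < θ * (n:ℝ) ^ ((s : ℝ) / (k : ℝ) - 1)) :
    (Z.card : ℝ) * (2 * ω) ≤ C := by
  have h1 : volume (⋃ n ∈ Z, Set.Icc ((n:ℝ) + 1 / 2 - ω) ((n:ℝ) + 1 / 2 + ω)) = Z.card * ENNReal.ofReal (2 * ω) := by
    rw [measure_biUnion_finset]
    · have h2 : ∀ n ∈ Z, volume (Set.Icc ((n:ℝ) + 1 / 2 - ω) ((n:ℝ) + 1 / 2 + ω)) = ENNReal.ofReal (2 * ω) := by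
        intro n _
        rw [Real.volume_Icc]
        congr 1
        ring
      rw [Finset.sum_congr rfl h2, Finset.sum_const, nsmul_eq_mul]
    · intro a _ b _ hab
      rw [Function.onFun, Set.disjoint_left]
      rintro t ⟨h3, h4⟩ ⟨h5, h6⟩
      rcases Nat.lt_or_gt_of_ne hab with h | h
      · have : (a:ℝ) + 1 ≤ b := by exact_mod_cast h
        linarith
      · have : (b:ℝ) + 1 ≤ a := by exact_mod_cast h
        linarith
    · intro n _
      exact measurableSet_Icc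
  have h2 : (⋃ n ∈ Z, Set.Icc ((n:ℝ) + 1 / 2 - ω) ((n:ℝ) + 1 / 2 + ω)) ⊆
      Bd k (1 / 2 - ω) θ ξ ∩ Set.Icc ((2:ℝ) ^ m) (2 ^ (m + 1)) := by
    intro t ht
    rw [Set.mem_iUnion₂] at ht
    obtain ⟨n, hn, ht⟩ := ht
    obtain ⟨h3, h4, h5⟩ := hZ n hn
    have h6 : 1 ≤ n := le_trans Nat.one_le_two_pow h3
    refine ⟨bad_interval hk hρ hξ h6 hω hω1 hθ h5 ht, ?_, ?_⟩
    · have : (2:ℝ) ^ m ≤ n := by exact_mod_cast h3
      linarith [ht.1]
    · have : (n:ℝ) + 1 ≤ 2 ^ (m + 1) := by exact_mod_cast h4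
      linarith [ht.2]
  have h3 := (measure_mono h2).trans hS
  rw [h1, ← ENNReal.ofReal_natCast, ← ENNReal.ofReal_mul (Nat.cast_nonneg _)] at h3
  exact (ENNReal.ofReal_le_ofReal_iff hC).1 h3

open Classical in
/-- **Natural numbers with few representations.** -/
theorem few_of_PP {k s : ℕ} {D : ℝ} (hk : 2 ≤ k) (hs : k ≤ s) (h : PP k s D) :
    ∀ᵐ ξ ∂(cube s), ∀ ε : ℝ, 0 < ε → ∀ δ : ℝ, 0 < δ → ∃ C : ℝ, 0 ≤ C ∧ ∀ N : ℕ, 1 ≤ N →
      (((range (N + 1)).filter fun n : ℕ => (rn k ξ n : ℝ) < (1 - ε) * (cs k s * (n:ℝ) ^ ((s : ℝ) / (k : ℝ) - 1))).card : ℝ) ≤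
        C * (N : ℝ) ^ max 0 (1 - D + δ) := by
  have hk1 : 1 ≤ k := by omega
  have hk0 : (0:ℝ) < k := by exact_mod_cast (by omega : 0 < k)
  have hks : (k:ℝ) ≤ s := by exact_mod_cast hs
  have hρ : 1 ≤ (s:ℝ) / (k:ℝ) := by rw [le_div_iff₀ hk0]; linarith
  have hcs := cs_pos hk1 (show 1 ≤ s by omega)
  have hi : ∀ i : ℕ, 0 < 1 / ((i:ℝ) + 1) ∧ 1 / ((i:ℝ) + 1) ≤ 1 := by
    intro i
    have h0 : (0:ℝ) ≤ i := Nat.cast_nonneg _
    refine ⟨by positivity, ?_⟩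
    rw [div_le_one (by linarith)]
    linarith
  have hall : ∀ᵐ ξ ∂(cube s), ∀ i j : ℕ, WD.Small (Bd k (1 / 2 - 1 / ((i:ℝ) + 1) / 4) ((1 - 1 / ((i:ℝ) + 1)) * cs k s) ξ) (D - 1 / ((j:ℝ) + 1)) := by
    rw [ae_all_iff]
    intro i
    rw [ae_all_iff]
    intro j
    rw [cube_ae]
    obtain ⟨h1, h2⟩ := hi i
    refine h _ _ _ (by linarith) ?_ (by linarith [(hi j).1])
    nlinarith
  have hpos2 : ∀ᵐ ξ ∂(cube s), ∀ i, 0 ≤ ξ i := by
    rw [cube_ae]
    exact Eventually.of_forall fun ξ hξ i => (hξ i).1.le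
  filter_upwards [hall, hpos2] with ξ hξ hξ0 ε hε δ hδ
  obtain ⟨i, hiε⟩ := exists_nat_one_div_lt hε
  obtain ⟨hi0, hi1⟩ := hi i
  set ε' : ℝ := 1 / ((i:ℝ) + 1) with hε'
  set ω : ℝ := ε' / 4 with hω
  have hω0 : 0 < ω := by positivity
  have hω1 : ω ≤ 1 / 4 := by rw [hω]; linarith
  set θ : ℝ := (1 - ε') * cs k s with hθ
  have hθ0 : 0 ≤ θ := mul_nonneg (by linarith) hcs.le
  -- the bad numbers
  set P : ℕ → Prop := fun n => (rn k ξ n : ℝ) < θ * (n:ℝ) ^ ((s : ℝ) / (k : ℝ) - 1) with hP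
  have hmono : ∀ N : ℕ, ((range (N + 1)).filter fun n : ℕ => (rn k ξ n : ℝ) < (1 - ε) * (cs k s * (n:ℝ) ^ ((s : ℝ) / (k : ℝ) - 1))) ⊆
      (range (N + 1)).filter P := by
    intro N n hn
    rw [mem_filter] at hn ⊢
    refine ⟨hn.1, hn.2.trans_le ?_⟩
    have h1 : (0:ℝ) ≤ cs k s * (n:ℝ) ^ ((s : ℝ) / (k : ℝ) - 1) := mul_nonneg hcs.le (Real.rpow_nonneg (Nat.cast_nonneg _) _)
    have h2 : (1 - ε) * (cs k s * (n:ℝ) ^ ((s : ℝ) / (k : ℝ) - 1)) ≤ (1 - ε') * (cs k s * (n:ℝ) ^ ((s : ℝ) / (k : ℝ) - 1)) :=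
      mul_le_mul_of_nonneg_right (by linarith) h1
    rw [hθ]
    linarith
  -- a reduction
  suffices hsuff : ∃ C : ℝ, 0 ≤ C ∧ ∀ N : ℕ, 1 ≤ N → (((range (N + 1)).filter P).card : ℝ) ≤ C * (N : ℝ) ^ max 0 (1 - D + δ) by
    obtain ⟨C, hC0, hC⟩ := hsuff
    refine ⟨C, hC0, fun N hN => le_trans ?_ (hC N hN)⟩
    exact_mod_cast card_le_card (hmono N)
  rcases lt_or_ge 1 D with hD | hD
  · -- no exceptions
    obtain ⟨j, hj⟩ := exists_nat_one_div_lt (show 0 < D - 1 by linarith)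
    have h1 := hξ i j
    set δ' : ℝ := D - 1 / ((j:ℝ) + 1) with hδ'
    have hδ'1 : 1 < δ' := by rw [hδ']; linarith
    have hlim : Tendsto (fun m : ℕ => ((2:ℝ) ^ m) ^ (1 - δ')) atTop (𝓝 0) := by
      have h2 := (tendsto_rpow_neg_atTop (y := δ' - 1) (by linarith)).comp (tendsto_pow_atTop_atTop_of_one_lt (one_lt_two (α := ℝ)))
      refine h2.congr fun m => ?_
      simp only [Function.comp]
      congr 1
      ring
    obtain ⟨m₀, hm₀⟩ := eventually_atTop.1 (h1.and (hlim.eventually_lt_const (by positivity : 0 < 2 * ω)))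
    refine ⟨2 ^ m₀, by positivity, fun N hN => ?_⟩
    have hN1 : (1:ℝ) ≤ N := by exact_mod_cast hN
    have h2 : (range (N + 1)).filter P ⊆ range (2 ^ m₀) := by
      intro n hn
      rw [mem_filter] at hn
      rw [mem_range]
      by_contra h3
      push Not at h3
      have hn0 : n ≠ 0 := by have := Nat.one_le_two_pow (n := m₀); omega
      set m := Nat.log 2 n with hm
      have h4 : m₀ ≤ m := Nat.le_log_of_pow_le one_lt_two h3
      obtain ⟨h5, h6⟩ := hm₀ m h4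
      have h7 := bad_dyadic hk1 hρ hξ0 hω0 hω1 hθ0 (C := ((2:ℝ) ^ m) ^ (1 - δ')) (by positivity) h5 {n} (fun z hz => by
        rw [mem_singleton] at hz
        subst hz
        exact ⟨Nat.pow_log_le_self 2 hn0, Nat.lt_pow_succ_log_self one_lt_two _, hn.2⟩)
      rw [card_singleton] at h7
      push_cast at h7
      linarith
    have h3 := card_le_card h2
    rw [card_range] at h3
    have h4 : (((range (N + 1)).filter P).card : ℝ) ≤ 2 ^ m₀ := by exact_mod_cast h3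
    have h5 : (1:ℝ) ≤ (N:ℝ) ^ max 0 (1 - D + δ) := Real.one_le_rpow hN1 (le_max_left _ _)
    have h6 : (0:ℝ) < 2 ^ m₀ := by positivity
    nlinarith
  · obtain ⟨j, hj⟩ := exists_nat_one_div_lt hδ
    have h1 := hξ i j
    set δ' : ℝ := D - 1 / ((j:ℝ) + 1) with hδ'
    have hδ'1 : 0 < 1 - δ' := by rw [hδ']; linarith [(hi j).1]
    set e : ℝ := 1 - δ' with he
    set r : ℝ := (2:ℝ) ^ e with hr
    have hr1 : 1 < r := Real.one_lt_rpow one_lt_two hδ'1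
    obtain ⟨m₀, hm₀⟩ := eventually_atTop.1 h1
    refine ⟨2 ^ m₀ + r / (r - 1) / (2 * ω), by have : 0 < r - 1 := by linarith
                                               positivity, fun N hN => ?_⟩
    have hN1 : (1:ℝ) ≤ N := by exact_mod_cast hN
    set M := Nat.log 2 N with hM
    set Z : ℕ → Finset ℕ := fun m => (range (N + 1)).filter fun n => 2 ^ m ≤ n ∧ n < 2 ^ (m + 1) ∧ P n with hZ
    have h2 : (range (N + 1)).filter P ⊆ range (2 ^ m₀) ∪ (Ico m₀ (M + 1)).biUnion Z := by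
      intro n hn
      rw [mem_filter, mem_range] at hn
      rw [mem_union, mem_range, mem_biUnion]
      by_cases h3 : n < 2 ^ m₀
      · exact Or.inl h3
      · push Not at h3
        have hn0 : n ≠ 0 := by have := Nat.one_le_two_pow (n := m₀); omega
        refine Or.inr ⟨Nat.log 2 n, ?_, ?_⟩
        · rw [mem_Ico]
          exact ⟨Nat.le_log_of_pow_le one_lt_two h3, Nat.lt_succ_of_le (Nat.log_mono_right (by omega))⟩
        · rw [hZ]
          simp only [mem_filter, mem_range]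
          exact ⟨hn.1, Nat.pow_log_le_self 2 hn0, Nat.lt_pow_succ_log_self one_lt_two _, hn.2⟩
    have h3 : ∀ m ∈ Ico m₀ (M + 1), ((Z m).card : ℝ) ≤ r ^ m / (2 * ω) := by
      intro m hm
      rw [mem_Ico] at hm
      rw [le_div_iff₀ (by positivity)]
      have h4 := bad_dyadic hk1 hρ hξ0 hω0 hω1 hθ0 (C := ((2:ℝ) ^ m) ^ e) (by positivity) (hm₀ m hm.1) (Z m) (fun z hz => by
        rw [hZ] at hz
        simp only [mem_filter] at hz
        exact hz.2)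
      have h5 : ((2:ℝ) ^ m) ^ e = r ^ m := by
        rw [hr, ← Real.rpow_natCast 2 m, ← Real.rpow_mul (by norm_num), ← Real.rpow_natCast ((2:ℝ) ^ e), ← Real.rpow_mul (by norm_num)]
        congr 1
        ring
      rwa [h5] at h4
    have h4 : (((range (N + 1)).filter P).card : ℝ) ≤ 2 ^ m₀ + ∑ m ∈ Ico m₀ (M + 1), ((Z m).card : ℝ) := by
      have h5 := (card_le_card h2).trans (card_union_le _ _)
      have h6 := h5.trans (Nat.add_le_add_left card_biUnion_le _)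
      rw [card_range] at h6
      exact_mod_cast h6
    have h5 : ∑ m ∈ Ico m₀ (M + 1), ((Z m).card : ℝ) ≤ r / (r - 1) / (2 * ω) * (N:ℝ) ^ e := by
      calc ∑ m ∈ Ico m₀ (M + 1), ((Z m).card : ℝ) ≤ ∑ m ∈ Ico m₀ (M + 1), r ^ m / (2 * ω) := sum_le_sum h3
        _ ≤ ∑ m ∈ range (M + 1), r ^ m / (2 * ω) := by
            apply sum_le_sum_of_subset_of_nonneg
            · intro m hm
              rw [mem_Ico] at hm
              exact mem_range.2 hm.2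
            · intro m _ _
              have : 0 < r := by linarith
              positivity
        _ = (r ^ (M + 1) - 1) / (r - 1) / (2 * ω) := by
            rw [← sum_div, geom_sum_eq hr1.ne']
        _ ≤ r ^ (M + 1) / (r - 1) / (2 * ω) := by
            have : 0 < r - 1 := by linarith
            gcongr
            linarith
        _ = r / (r - 1) / (2 * ω) * r ^ M := by rw [pow_succ]; ring
        _ ≤ r / (r - 1) / (2 * ω) * (N:ℝ) ^ e := by
            have h6 : r ^ M ≤ (N:ℝ) ^ e := by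
              rw [hr, ← Real.rpow_natCast ((2:ℝ) ^ e), ← Real.rpow_mul (by norm_num), mul_comm, Real.rpow_mul (by norm_num), Real.rpow_natCast]
              apply Real.rpow_le_rpow (by positivity) _ hδ'1.le
              have : 2 ^ M ≤ N := Nat.pow_log_le_self 2 (by omega)
              exact_mod_cast this
            have : 0 < r - 1 := by linarith
            have : 0 < r := by linarith
            gcongr
    have h6 : (N:ℝ) ^ e ≤ (N:ℝ) ^ max 0 (1 - D + δ) := by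
      apply Real.rpow_le_rpow_of_exponent_le hN1
      refine le_trans ?_ (le_max_right _ _)
      rw [he, hδ']
      linarith
    have h7 : (1:ℝ) ≤ (N:ℝ) ^ max 0 (1 - D + δ) := Real.one_le_rpow hN1 (le_max_left _ _)
    have h8 : 0 ≤ r / (r - 1) / (2 * ω) := by
      have : 0 < r - 1 := by linarith
      positivity
    calc (((range (N + 1)).filter P).card : ℝ) ≤ 2 ^ m₀ + r / (r - 1) / (2 * ω) * (N:ℝ) ^ e := h4.trans (by linarith)
      _ ≤ 2 ^ m₀ * (N:ℝ) ^ max 0 (1 - D + δ) + r / (r - 1) / (2 * ω) * (N:ℝ) ^ max 0 (1 - D + δ) := by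
          have h9 : (2:ℝ) ^ m₀ ≤ 2 ^ m₀ * (N:ℝ) ^ max 0 (1 - D + δ) := le_mul_of_one_le_right (by positivity) h7
          have h10 := mul_le_mul_of_nonneg_left h6 h8
          linarith
      _ = _ := by ring

end Pool.Agent.K7.H74.WL
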