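import Mathlib

set_option autoImplicit false

/-! Waring's problem with shifts: the main term with one more variable. -/

namespace Pool.Agent.K7.H74.WL

open MeasureTheory Filter Topology

/-- the beta integral -/
theorem beta_int {a b : ℝ} (ha : 0 < a) (hb : 0 < b) :
    ∫ x in Set.Ioi (0:ℝ), ProbabilityTheory.betaPDFReal a b x = 1 := by
  have h0 : ∀ x : ℝ, 0 ≤ ProbabilityTheory.betaPDFReal a b x := by
    intro x
    by_cases h : 0 < x ∧ x < 1
    · exact (ProbabilityTheory.betaPDFReal_pos h.1 h.2 ha hb).le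
    · unfold ProbabilityTheory.betaPDFReal
      rw [if_neg h]
  have h1 : ∫ x, ProbabilityTheory.betaPDFReal a b x = 1 := by
    rw [integral_eq_lintegral_of_nonneg_ae (Eventually.of_forall h0)
      (ProbabilityTheory.measurable_betaPDFReal a b).aestronglyMeasurable]
    have h2 : ∫⁻ x, ENNReal.ofReal (ProbabilityTheory.betaPDFReal a b x) = 1 :=
      ProbabilityTheory.lintegral_betaPDF_eq_one ha hb
    rw [h2]
    simp
  rw [← h1, ← integral_indicator measurableSet_Ioi]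
  congr 1
  funext x
  by_cases hx : x ∈ Set.Ioi (0:ℝ)
  · rw [Set.indicator_of_mem hx]
  · rw [Set.indicator_of_notMem hx]
    unfold ProbabilityTheory.betaPDFReal
    rw [if_neg]
    intro h
    exact hx h.1

/-- the integral of `(1 - x ^ k) ^ (b - 1)` -/
theorem I_eq {k : ℕ} (hk : 1 ≤ k) {b : ℝ} (hb : 1 ≤ b) :
    ∫ x in (0:ℝ)..1, (1 - x ^ k) ^ (b - 1) =
      1 / k * (Real.Gamma (1 / k) * Real.Gamma b / Real.Gamma (1 / k + b)) := by
  have hk0 : (0:ℝ) < k := by exact_mod_cast (by omega : 0 < k)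
  set B := ProbabilityTheory.beta (1 / (k:ℝ)) b with hB
  have hB0 : 0 < B := ProbabilityTheory.beta_pos (by positivity) (by linarith)
  have h1 := integral_comp_rpow_Ioi_of_pos (g := ProbabilityTheory.betaPDFReal (1 / (k:ℝ)) b) hk0
  rw [beta_int (by positivity) (by linarith)] at h1
  have h2 : ∫ x in Set.Ioi (0:ℝ), ((k:ℝ) * x ^ ((k:ℝ) - 1)) • ProbabilityTheory.betaPDFReal (1 / (k:ℝ)) b (x ^ (k:ℝ)) =
      ∫ x in Set.Ioi (0:ℝ), (Set.Ioo (0:ℝ) 1).indicator (fun x => k / B * (1 - x ^ k) ^ (b - 1)) x := by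
    apply setIntegral_congr_fun measurableSet_Ioi
    intro x hx
    have hx0 : 0 < x := hx
    simp only [smul_eq_mul]
    unfold ProbabilityTheory.betaPDFReal
    rw [Real.rpow_natCast]
    by_cases hx1 : x < 1
    · rw [if_pos ⟨by positivity, pow_lt_one₀ hx0.le hx1 (by omega)⟩, Set.indicator_of_mem (show x ∈ Set.Ioo (0:ℝ) 1 from ⟨hx0, hx1⟩)]
      have e1 : (x ^ k) ^ (1 / (k:ℝ) - 1) = x ^ (1 - (k:ℝ)) := by
        rw [← Real.rpow_natCast, ← Real.rpow_mul hx0.le]
        congr 1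
        field_simp
      have e2 : x ^ ((k:ℝ) - 1) * x ^ (1 - (k:ℝ)) = 1 := by
        rw [← Real.rpow_add hx0]
        rw [show (k:ℝ) - 1 + (1 - k) = 0 by ring, Real.rpow_zero]
      rw [e1]
      calc (k:ℝ) * x ^ ((k:ℝ) - 1) * (1 / ProbabilityTheory.beta (1 / (k:ℝ)) b * x ^ (1 - (k:ℝ)) * (1 - x ^ k) ^ (b - 1)) =
          k / B * (x ^ ((k:ℝ) - 1) * x ^ (1 - (k:ℝ))) * (1 - x ^ k) ^ (b - 1) := by rw [hB]; ring
        _ = _ := by rw [e2, mul_one]
    · push Not at hx1
      rw [if_neg, mul_zero, Set.indicator_of_notMem]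
      · rintro ⟨_, h⟩
        linarith
      · rintro ⟨_, h⟩
        have := one_le_pow₀ hx1 (n := k)
        linarith
  rw [h2] at h1
  rw [setIntegral_indicator measurableSet_Ioo] at h1
  have e3 : Set.Ioi (0:ℝ) ∩ Set.Ioo (0:ℝ) 1 = Set.Ioo (0:ℝ) 1 := by
    ext x
    simp only [Set.mem_inter_iff, Set.mem_Ioi, Set.mem_Ioo]
    tauto
  rw [e3, ← integral_Ioc_eq_integral_Ioo, ← intervalIntegral.integral_of_le zero_le_one,
    intervalIntegral.integral_const_mul] at h1
  have e4 : ∫ x in (0:ℝ)..1, (1 - x ^ k) ^ (b - 1) = B / k := by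
    field_simp at h1 ⊢
    linarith
  rw [e4, hB]
  unfold ProbabilityTheory.beta
  ring

/-- the profile -/
noncomputable def gg (k : ℕ) (a u : ℝ) : ℝ := (1 - u ^ k) ^ a

lemma gg_anti {k : ℕ} {a : ℝ} (ha : 0 ≤ a) : AntitoneOn (gg k a) (Set.Icc 0 1) := by
  intro x hx y hy hxy
  unfold gg
  apply Real.rpow_le_rpow _ _ ha
  · have := pow_le_one₀ (n := k) hy.1 hy.2
    linarith
  · have := pow_le_pow_left₀ hx.1 hxy k
    linarith

lemma gg_nonneg {k : ℕ} {a u : ℝ} (h0 : 0 ≤ u) (h1 : u ≤ 1) : 0 ≤ gg k a u := by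
  unfold gg
  apply Real.rpow_nonneg
  have := pow_le_one₀ (n := k) h0 h1
  linarith

lemma gg_le {k : ℕ} {a u : ℝ} (ha : 0 ≤ a) (h0 : 0 ≤ u) (h1 : u ≤ 1) : gg k a u ≤ 1 := by
  unfold gg
  apply Real.rpow_le_one _ _ ha
  · have := pow_le_one₀ (n := k) h0 h1
    linarith
  · have : 0 ≤ u ^ k := by positivity
    linarith

lemma gg_cont {k : ℕ} {a : ℝ} (ha : 0 ≤ a) : Continuous (gg k a) := by
  unfold gg
  exact Continuous.rpow_const (by fun_prop) fun _ => Or.inr ha

/-- the Riemann sum -/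
theorem riemann {k : ℕ} {a : ℝ} (ha : 0 ≤ a) {T β c : ℝ} (hT : 0 < T) (hβ : 0 < β) (hβ1 : β ≤ 1) (hc : 0 < c) (hc1 : c ≤ 1)
    (hTc : 1 ≤ c * T) {N : ℕ} (hN : (N:ℝ) + β ≤ (1 - c) * T + 1) (hN2 : (1 - c) * T ≤ N + β) :
    T * (∫ u in (0:ℝ)..1, gg k a u) - c * T - 1 ≤ ∑ y ∈ Finset.range N, gg k a (((y:ℝ) + β) / T) := by
  have hNT : (N:ℝ) + β ≤ T := by nlinarith
  have hanti : AntitoneOn (fun v => gg k a (v / T)) (Set.Icc β (β + N)) := by
    intro x hx y hy hxy
    have hx0 : 0 ≤ x := by linarith [hx.1]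
    have hy0 : 0 ≤ y := by linarith [hy.1]
    apply gg_anti ha
    · exact ⟨by positivity, by rw [div_le_one hT]; linarith [hx.2]⟩
    · exact ⟨by positivity, by rw [div_le_one hT]; linarith [hy.2]⟩
    · gcongr
  have h1 := hanti.integral_le_sum
  have h2 : ∑ y ∈ Finset.range N, gg k a (((y:ℝ) + β) / T) = ∑ y ∈ Finset.range N, gg k a ((β + (y:ℝ)) / T) := by
    apply Finset.sum_congr rfl
    intro y _
    rw [add_comm]
  rw [h2]
  refine le_trans ?_ h1
  have hcont : Continuous fun v => gg k a (v / T) := (gg_cont ha).comp (by fun_prop)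
  have hsub : ∫ v in (0:ℝ)..T, gg k a (v / T) = T * ∫ u in (0:ℝ)..1, gg k a u := by
    rw [intervalIntegral.integral_comp_div (fun u => gg k a u) hT.ne', zero_div, div_self hT.ne', smul_eq_mul]
  have hint : ∀ p q : ℝ, IntervalIntegrable (fun v => gg k a (v / T)) volume p q := fun p q => hcont.intervalIntegrable _ _
  have hsplit : ∫ v in (0:ℝ)..T, gg k a (v / T) = (∫ v in (0:ℝ)..β, gg k a (v / T)) + (∫ v in β..(β + N), gg k a (v / T)) +
      ∫ v in (β + N)..T, gg k a (v / T) := by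
    rw [intervalIntegral.integral_add_adjacent_intervals (hint _ _) (hint _ _),
      intervalIntegral.integral_add_adjacent_intervals (hint _ _) (hint _ _)]
  have hb1 : ∫ v in (0:ℝ)..β, gg k a (v / T) ≤ β := by
    have h3 : ∫ v in (0:ℝ)..β, gg k a (v / T) ≤ ∫ v in (0:ℝ)..β, (1:ℝ) := by
      apply intervalIntegral.integral_mono_on hβ.le (hint _ _) (by simp)
      intro v hv
      apply gg_le ha
      · have := hv.1; positivity
      · rw [div_le_one hT]; have := hv.2; have : (0:ℝ) ≤ N := Nat.cast_nonneg _; linarith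
    simpa using h3
  have hb2 : ∫ v in (β + N)..T, gg k a (v / T) ≤ T - (β + N) := by
    have hN0 : (0:ℝ) ≤ N := Nat.cast_nonneg _
    have h3 : ∫ v in (β + N)..T, gg k a (v / T) ≤ ∫ v in (β + N)..T, (1:ℝ) := by
      apply intervalIntegral.integral_mono_on (by linarith) (hint _ _) (by simp)
      intro v hv
      have hv1 := hv.1
      apply gg_le ha
      · have : 0 ≤ v := by linarith
        positivity
      · rw [div_le_one hT]; exact hv.2
    simpa using h3
  have : T * (∫ u in (0:ℝ)..1, gg k a u) ≤ β + (∫ v in β..(β + N), gg k a (v / T)) + (T - (β + N)) := by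
    rw [← hsub, hsplit]
    linarith
  linarith

end Pool.Agent.K7.H74.WL
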