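import Pool.Agent.K7.H74.WL.Bs
import Pool.Agent.K7.H74.WL.Rs

set_option autoImplicit false

/-! Waring's problem with shifts: the induction on the number of variables, numbers of solutions. -/

namespace Pool.Agent.K7.H74.WL

open MeasureTheory Filter Topology
open K7.H74.WD K7.H74.WS

/-- the constant in the main term -/
noncomputable def cs (k s : ℕ) : ℝ := Vs k s * ((s : ℝ) / (k : ℝ))

/-- the integral -/
noncomputable def II (k s : ℕ) : ℝ := ∫ u in (0:ℝ)..1, gg k ((s : ℝ) / (k : ℝ) - 1) u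

lemma cs_pos {k s : ℕ} (hk : 1 ≤ k) (hs : 1 ≤ s) : 0 < cs k s := by
  unfold cs
  have h1 := Vs_pos hk s
  have h2 : (0:ℝ) < k := by exact_mod_cast (by omega : 0 < k)
  have h3 : (0:ℝ) < s := by exact_mod_cast (by omega : 0 < s)
  positivity

/-- one more variable in the main term -/
theorem cs_succ {k s : ℕ} (hk : 1 ≤ k) (hs : k ≤ s) : cs k (s + 1) = cs k s * II k s := by
  have hk0 : (0:ℝ) < k := by exact_mod_cast (by omega : 0 < k)
  have hks : (k:ℝ) ≤ s := by exact_mod_cast hs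
  have hb : 1 ≤ (s:ℝ) / (k:ℝ) := by rw [le_div_iff₀ hk0]; linarith
  unfold cs II gg
  rw [I_eq hk hb, Vs_const hk (by omega), Vs_const hk (by omega)]
  have h1 : Real.Gamma (1 + 1 / (k:ℝ)) = 1 / (k:ℝ) * Real.Gamma (1 / (k:ℝ)) := by
    rw [add_comm, Real.Gamma_add_one (by positivity)]
  have h2 : Real.Gamma ((s:ℝ) / (k:ℝ)) ≠ 0 := (Real.Gamma_pos_of_pos (by linarith)).ne'
  have h3 : (((s + 1 : ℕ) : ℝ)) / (k:ℝ) = 1 / (k:ℝ) + (s:ℝ) / (k:ℝ) := by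
    push_cast
    ring
  rw [h3, pow_succ]
  nth_rewrite 2 [h1]
  field_simp

/-- **one more variable**, deterministic part -/
theorem one_more {s k : ℕ} (hk : 2 ≤ k) (hs : k ≤ s) {η θ' θ c : ℝ} (hθ' : 0 < θ') (hc : 0 < c) (hc1 : c ≤ 1 / 2)
    (hgap : θ < θ' * (II k s - 2 * c)) (ξ : Fin s → ℝ) {β : ℝ} (hβ : β ∈ Set.Ioc (0:ℝ) 1) :
    ∃ t₀ : ℝ, ∀ t, t₀ ≤ t → t ∈ Bd k η θ (Fin.snoc ξ β : Fin (s + 1) → ℝ) → t ∈ Vd (Bd k η θ' ξ) k c β := by
  classical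
  have hk0 : (0:ℝ) < k := by exact_mod_cast (by omega : 0 < k)
  have hks : (k:ℝ) ≤ s := by exact_mod_cast hs
  set ρ : ℝ := (s : ℝ) / (k : ℝ) with hρd
  have hρ : 1 ≤ ρ := by rw [hρd, le_div_iff₀ hk0]; linarith
  have hρ1 : 0 ≤ ρ - 1 := by linarith
  -- large `T`
  have hT1 : Tendsto (fun t : ℝ => t ^ (1 / (k:ℝ))) atTop atTop := tendsto_rpow_atTop (by positivity)
  set g : ℝ := θ' * (II k s - 2 * c) - θ with hg
  have hg0 : 0 < g := by rw [hg]; linarith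
  have hev : ∀ᶠ t : ℝ in atTop, 1 / c ≤ t ∧ 1 ≤ t ∧ 2 / c ≤ t ^ (1 / (k:ℝ)) ∧ 2 ≤ t ^ (1 / (k:ℝ)) ∧ θ' / g ≤ t ^ (1 / (k:ℝ)) := by
    filter_upwards [eventually_ge_atTop (1 / c), eventually_ge_atTop 1, hT1.eventually_ge_atTop (2 / c), hT1.eventually_ge_atTop 2,
      hT1.eventually_ge_atTop (θ' / g)] with t h1 h2 h3 h4 h5
    exact ⟨h1, h2, h3, h4, h5⟩
  obtain ⟨t₀, ht₀⟩ := eventually_atTop.1 hev
  refine ⟨t₀, fun t ht hB => ?_⟩
  obtain ⟨h1, h2, h3, h4, h5⟩ := ht₀ t ht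
  have ht0 : 0 < t := by linarith
  by_contra hV
  set T : ℝ := t ^ (1 / (k:ℝ)) with hT
  have hT0 : 0 < T := by linarith
  have hTk : T ^ k = t := by
    rw [hT, ← Real.rpow_natCast, ← Real.rpow_mul ht0.le, one_div_mul_cancel hk0.ne', Real.rpow_one]
  have hcT : 2 ≤ c * T := by rw [div_le_iff₀ hc] at h3; linarith
  have hβ0 := hβ.1
  have hβ1 := hβ.2
  set N : ℕ := ⌊(1 - c) * T - β⌋₊ + 1 with hN
  have hpos : 0 ≤ (1 - c) * T - β := by nlinarith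
  have hN1 : (N:ℝ) + β ≤ (1 - c) * T + 1 := by
    have := Nat.floor_le hpos
    rw [hN]; push_cast; linarith
  have hN2 : (1 - c) * T ≤ N + β := by
    have := Nat.lt_floor_add_one ((1 - c) * T - β)
    rw [hN]; push_cast; linarith
  -- the `y`
  have hy : ∀ y ∈ Finset.range N, c * t ≤ t - ((y:ℝ) + β) ^ k ∧ ((y:ℝ) + β) / T ≤ 1 := by
    intro y hy
    rw [Finset.mem_range, hN, Nat.lt_succ_iff] at hy
    have h6 : (y:ℝ) ≤ (1 - c) * T - β := (Nat.le_floor_iff hpos).1 hy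
    have h7 : (y:ℝ) + β ≤ (1 - c) * T := by linarith
    have h8 : ((y:ℝ) + β) ^ k ≤ (1 - c) ^ k * t := by
      rw [← hTk, ← mul_pow]
      exact pow_le_pow_left₀ (by positivity) h7 k
    have h9 : (1 - c) ^ k ≤ 1 - c := pow_le_of_le_one (by linarith) (by linarith) (by omega)
    refine ⟨?_, ?_⟩
    · nlinarith
    · rw [div_le_one hT0]
      nlinarith
  set Yb := (Finset.range N).filter fun y : ℕ => t - ((y:ℝ) + β) ^ k ∈ Bd k η θ' ξ with hYb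
  set Yg := (Finset.range N).filter fun y : ℕ => ¬ (t - ((y:ℝ) + β) ^ k ∈ Bd k η θ' ξ) with hYg
  have hYbc : (Yb.card : ℝ) < c * T := by
    by_contra hcon
    push Not at hcon
    apply hV
    refine ⟨Yb, fun y hy' => ?_, hcon⟩
    rw [hYb, Finset.mem_filter] at hy'
    exact ⟨(hy y hy'.1).1, hy'.2⟩
  -- solutions
  have hA : ∀ y : ℕ, ∃ A : Finset (Fin s → ℕ), y ∈ Yg → ((∀ x ∈ A, |(∑ i, ((x i : ℝ) + ξ i) ^ k) - (t - ((y:ℝ) + β) ^ k)| < η) ∧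
      θ' * (t - ((y:ℝ) + β) ^ k) ^ (ρ - 1) ≤ (A.card : ℝ)) := by
    intro y
    by_cases h6 : y ∈ Yg
    · have h7 := h6
      rw [hYg, Finset.mem_filter] at h7
      obtain ⟨h8, h9⟩ := h7
      have h10 : 1 ≤ t - ((y:ℝ) + β) ^ k := by
        have := (hy y h8).1
        rw [div_le_iff₀ hc] at h1
        linarith
      have h11 : ∃ A : Finset (Fin s → ℕ), (∀ x ∈ A, |(∑ i, ((x i : ℝ) + ξ i) ^ k) - (t - ((y:ℝ) + β) ^ k)| < η) ∧
          θ' * (t - ((y:ℝ) + β) ^ k) ^ (ρ - 1) ≤ (A.card : ℝ) := by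
        by_contra hcon
        push Not at hcon
        exact h9 ⟨h10, hcon⟩
      obtain ⟨A, hA1, hA2⟩ := h11
      exact ⟨A, fun _ => ⟨hA1, hA2⟩⟩
    · exact ⟨∅, fun h => absurd h h6⟩
  choose A hA' using hA
  set AA : Finset (Fin (s + 1) → ℕ) := Yg.biUnion fun y => (A y).image fun x => (Fin.snoc x y : Fin (s + 1) → ℕ) with hAA
  have hAAc : AA.card = ∑ y ∈ Yg, (A y).card := by
    rw [hAA, Finset.card_biUnion]
    · apply Finset.sum_congr rfl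
      intro y _
      apply Finset.card_image_of_injective
      intro x x' hx
      have := congrArg Fin.init hx
      simpa using this
    · intro y _ y' _ hyy
      rw [Function.onFun, Finset.disjoint_left]
      intro z hz hz'
      rw [Finset.mem_image] at hz hz'
      obtain ⟨x, _, hx⟩ := hz
      obtain ⟨x', _, hx'⟩ := hz'
      apply hyy
      have e1 : z (Fin.last s) = y := by rw [← hx]; simp
      have e2 : z (Fin.last s) = y' := by rw [← hx']; simp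
      omega
  have hAAm : ∀ z ∈ AA, |(∑ i, ((z i : ℝ) + (Fin.snoc ξ β : Fin (s + 1) → ℝ) i) ^ k) - t| < η := by
    intro z hz
    rw [hAA, Finset.mem_biUnion] at hz
    obtain ⟨y, hy', hz⟩ := hz
    rw [Finset.mem_image] at hz
    obtain ⟨x, hx, rfl⟩ := hz
    have h6 := (hA' y hy').1 x hx
    rw [Fin.sum_univ_castSucc]
    simp only [Fin.snoc_castSucc, Fin.snoc_last]
    have e1 : ∑ i, ((x i : ℝ) + ξ i) ^ k + ((y:ℝ) + β) ^ k - t = ∑ i, ((x i : ℝ) + ξ i) ^ k - (t - ((y:ℝ) + β) ^ k) := by ring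
    rw [e1]
    exact h6
  have hlt := hB.2 AA hAAm
  -- the lower bound
  have hprof : ∀ y ∈ Finset.range N, (t - ((y:ℝ) + β) ^ k) ^ (ρ - 1) = t ^ (ρ - 1) * gg k (ρ - 1) (((y:ℝ) + β) / T) := by
    intro y hy'
    unfold gg
    have h6 : (((y:ℝ) + β) / T) ^ k ≤ 1 := pow_le_one₀ (by positivity) (hy y hy').2
    rw [← Real.mul_rpow ht0.le (by linarith)]
    congr 1
    rw [div_pow, hTk]
    field_simp
  have hsum : T * II k s - 2 * (c * T) - 1 ≤ ∑ y ∈ Yg, gg k (ρ - 1) (((y:ℝ) + β) / T) := by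
    have h6 := riemann (k := k) (a := ρ - 1) hρ1 hT0 hβ0 hβ1 hc (by linarith) (by linarith) hN1 hN2
    have h7 : ∑ y ∈ Yb, gg k (ρ - 1) (((y:ℝ) + β) / T) + ∑ y ∈ Yg, gg k (ρ - 1) (((y:ℝ) + β) / T) =
        ∑ y ∈ Finset.range N, gg k (ρ - 1) (((y:ℝ) + β) / T) := Finset.sum_filter_add_sum_filter_not _ _ _
    have h8 : ∑ y ∈ Yb, gg k (ρ - 1) (((y:ℝ) + β) / T) ≤ Yb.card := by
      have h9 : ∑ y ∈ Yb, gg k (ρ - 1) (((y:ℝ) + β) / T) ≤ ∑ y ∈ Yb, (1:ℝ) := by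
        apply Finset.sum_le_sum
        intro y hy'
        rw [hYb, Finset.mem_filter] at hy'
        exact gg_le hρ1 (by positivity) (hy y hy'.1).2
      simpa using h9
    unfold II
    linarith
  have hcard : θ' * t ^ (ρ - 1) * (T * II k s - 2 * (c * T) - 1) ≤ (AA.card : ℝ) := by
    rw [hAAc]
    push_cast
    calc θ' * t ^ (ρ - 1) * (T * II k s - 2 * (c * T) - 1) ≤ θ' * t ^ (ρ - 1) * ∑ y ∈ Yg, gg k (ρ - 1) (((y:ℝ) + β) / T) :=
          mul_le_mul_of_nonneg_left hsum (by positivity)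
      _ = ∑ y ∈ Yg, θ' * (t - ((y:ℝ) + β) ^ k) ^ (ρ - 1) := by
          rw [Finset.mul_sum]
          apply Finset.sum_congr rfl
          intro y hy'
          rw [hYg, Finset.mem_filter] at hy'
          rw [hprof y hy'.1]
          ring
      _ ≤ _ := Finset.sum_le_sum fun y hy' => (hA' y hy').2
  have hpw : t ^ (((s + 1 : ℕ) : ℝ) / (k : ℝ) - 1) = t ^ (ρ - 1) * T := by
    rw [hT, ← Real.rpow_add ht0]
    congr 1
    rw [hρd]
    push_cast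
    ring
  rw [hpw] at hlt
  have hfin : θ * T ≤ θ' * (T * II k s - 2 * (c * T) - 1) := by
    have h6 : θ' ≤ g * T := by
      rw [div_le_iff₀ hg0] at h5
      linarith
    have h7 : g * T = θ' * (T * II k s - 2 * (c * T)) - θ * T := by rw [hg]; ring
    linarith
  have htp : 0 < t ^ (ρ - 1) := Real.rpow_pos_of_pos ht0 _
  have h8 := mul_le_mul_of_nonneg_left hfin htp.le
  have h9 : t ^ (ρ - 1) * (θ' * (T * II k s - 2 * (c * T) - 1)) = θ' * t ^ (ρ - 1) * (T * II k s - 2 * (c * T) - 1) := by ring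
  have h10 : θ * (t ^ (ρ - 1) * T) = t ^ (ρ - 1) * (θ * T) := by ring
  linarith

/-- the property of the number of variables -/
def PP (k s : ℕ) (D : ℝ) : Prop := ∀ η θ δ : ℝ, 0 < η → θ < 2 * η * cs k s → δ < D →
  ∀ᵐ ξ : Fin s → ℝ, (∀ i, ξ i ∈ Set.Ioc (0:ℝ) 1) → WD.Small (Bd k η θ ξ) δ

/-- **One more variable.** -/
theorem PP_succ {s k : ℕ} (hk : 2 ≤ k) (hs : k ≤ s) {D : ℝ} (h : PP k s D) : PP k (s + 1) (2 * D) := by
  intro η θ δ hη hθ hδ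
  have hk1 : 1 ≤ k := by omega
  have hcs := cs_pos hk1 (show 1 ≤ s by omega)
  have hcs1 := cs_pos hk1 (show 1 ≤ s + 1 by omega)
  have hsucc := cs_succ hk1 hs
  have hI : 0 < II k s := by
    rw [hsucc] at hcs1
    exact (mul_pos_iff_of_pos_left hcs).1 hcs1
  -- the parameters
  set θ₁ : ℝ := max θ (η * cs k (s + 1)) with hθ₁
  have hθ₁0 : 0 < θ₁ := lt_of_lt_of_le (by positivity) (le_max_right _ _)
  have hθ₁1 : θ₁ < 2 * η * cs k (s + 1) := by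
    rw [hθ₁]
    apply max_lt hθ
    nlinarith [mul_pos hη hcs1]
  have hq : θ₁ / II k s < 2 * η * cs k s := by
    rw [div_lt_iff₀ hI]
    rw [hsucc] at hθ₁1
    linarith
  obtain ⟨θ', hθ'1, hθ'2⟩ := exists_between hq
  have hθ'0 : 0 < θ' := lt_trans (by positivity) hθ'1
  rw [div_lt_iff₀ hI] at hθ'1
  obtain ⟨c, hc0, hc1⟩ : ∃ c : ℝ, 0 < c ∧ c < min (1 / 2) ((θ' * II k s - θ₁) / (2 * θ')) := by
    apply exists_between
    apply lt_min (by norm_num)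
    apply div_pos (by linarith) (by positivity)
  have hc2 : c ≤ 1 / 2 := (hc1.le).trans (min_le_left _ _)
  have hgap : θ₁ < θ' * (II k s - 2 * c) := by
    have h1 : c < (θ' * II k s - θ₁) / (2 * θ') := hc1.trans_le (min_le_right _ _)
    rw [lt_div_iff₀ (by positivity)] at h1
    linarith
  obtain ⟨δ', hδ1, hδ2⟩ := exists_between (show δ / 2 < D by linarith)
  have hbase := h η θ' δ' hη hθ'2 hδ2
  -- the statement on the product
  have hpr : ∀ᵐ ξ : Fin s → ℝ, ∀ᵐ β : ℝ, (∀ i, ξ i ∈ Set.Ioc (0:ℝ) 1) → β ∈ Set.Ioc (0:ℝ) 1 →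
      WD.Small (Bd k η θ (Fin.snoc ξ β : Fin (s + 1) → ℝ)) δ := by
    filter_upwards [hbase] with ξ hξ
    by_cases hpos : ∀ i, ξ i ∈ Set.Ioc (0:ℝ) 1
    · have h5 := (ae_restrict_iff' measurableSet_Ioc).1 (dens (Bd_meas k η θ' ξ) hk (hξ hpos) (by linarith : δ < 2 * δ')
        hc0 (by linarith : c ≤ 1))
      filter_upwards [h5] with β hβ _ hβ0
      obtain ⟨t₀, ht₀⟩ := one_more (η := η) hk hs hθ'0 hc0 hc2 hgap ξ hβ0
      refine Small_mono (t₀ := t₀) (fun t ht h6 => ht₀ t ht ?_) (hβ hβ0)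
      refine ⟨h6.1, fun A hA => (h6.2 A hA).trans_le ?_⟩
      exact mul_le_mul_of_nonneg_right (le_max_left _ _) (Real.rpow_nonneg (by linarith [h6.1]) _)
    · exact Eventually.of_forall (fun β hp => absurd hp hpos)
  -- Fubini
  set e := MeasurableEquiv.piFinSuccAbove (fun _ : Fin (s+1) => ℝ) (Fin.last s) with he
  have hmp : MeasurePreserving e volume volume :=
    volume_preserving_piFinSuccAbove (fun _ : Fin (s+1) => ℝ) (Fin.last s)
  have hms : MeasurableSet {p : ℝ × (Fin s → ℝ) | (∀ i, p.2 i ∈ Set.Ioc (0:ℝ) 1) → p.1 ∈ Set.Ioc (0:ℝ) 1 →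
      WD.Small (Bd k η θ (Fin.snoc p.2 p.1 : Fin (s + 1) → ℝ)) δ} := by
    have hsn : Measurable (fun p : ℝ × (Fin s → ℝ) => (Fin.snoc p.2 p.1 : Fin (s+1) → ℝ)) := by
      rw [measurable_pi_iff]
      intro i
      refine Fin.lastCases ?_ (fun j => ?_) i
      · simp only [Fin.snoc_last]; exact measurable_fst
      · simp only [Fin.snoc_castSucc]; fun_prop
    have m1 : MeasurableSet {p : ℝ × (Fin s → ℝ) | ∀ i, p.2 i ∈ Set.Ioc (0:ℝ) 1} := by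
      have e1 : {p : ℝ × (Fin s → ℝ) | ∀ i, p.2 i ∈ Set.Ioc (0:ℝ) 1} = ⋂ i, {p | p.2 i ∈ Set.Ioc (0:ℝ) 1} := by
        ext p; simp
      rw [e1]
      exact MeasurableSet.iInter (fun i => (by fun_prop : Measurable fun p : ℝ × (Fin s → ℝ) => p.2 i) measurableSet_Ioc)
    have m2 : MeasurableSet {p : ℝ × (Fin s → ℝ) | p.1 ∈ Set.Ioc (0:ℝ) 1} := measurable_fst measurableSet_Ioc
    have m3 : MeasurableSet {p : ℝ × (Fin s → ℝ) | WD.Small (Bd k η θ (Fin.snoc p.2 p.1 : Fin (s + 1) → ℝ)) δ} :=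
      hsn (Small_Bd_meas k η θ δ)
    have e2 : {p : ℝ × (Fin s → ℝ) | (∀ i, p.2 i ∈ Set.Ioc (0:ℝ) 1) → p.1 ∈ Set.Ioc (0:ℝ) 1 →
      WD.Small (Bd k η θ (Fin.snoc p.2 p.1 : Fin (s + 1) → ℝ)) δ} = {p | ∀ i, p.2 i ∈ Set.Ioc (0:ℝ) 1}ᶜ ∪ ({p | p.1 ∈ Set.Ioc (0:ℝ) 1}ᶜ ∪
        {p | WD.Small (Bd k η θ (Fin.snoc p.2 p.1 : Fin (s + 1) → ℝ)) δ}) := by
      ext p
      simp only [Set.mem_ofPred_eq, Set.mem_union, Set.mem_compl_iff]
      tauto
    rw [e2]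
    exact m1.compl.union (m2.compl.union m3)
  have hpr2 : ∀ᵐ p : ℝ × (Fin s → ℝ), (∀ i, p.2 i ∈ Set.Ioc (0:ℝ) 1) → p.1 ∈ Set.Ioc (0:ℝ) 1 →
      WD.Small (Bd k η θ (Fin.snoc p.2 p.1 : Fin (s + 1) → ℝ)) δ := by
    rw [Measure.volume_eq_prod]
    rw [Measure.ae_prod_iff_ae_ae hms]
    exact (Measure.ae_ae_comm (p := fun (β : ℝ) (ξ : Fin s → ℝ) => (∀ i, ξ i ∈ Set.Ioc (0:ℝ) 1) → β ∈ Set.Ioc (0:ℝ) 1 →
      WD.Small (Bd k η θ (Fin.snoc ξ β : Fin (s + 1) → ℝ)) δ) hms).mpr hpr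
  have hpr3 := hmp.quasiMeasurePreserving.ae hpr2
  filter_upwards [hpr3] with γ hγ hpos
  have e3 : (Fin.snoc (e γ).2 (e γ).1 : Fin (s+1) → ℝ) = γ := by
    have e4 : (e γ).1 = γ (Fin.last s) := rfl
    have e5 : (e γ).2 = fun j => γ j.castSucc := by
      funext j
      show γ ((Fin.last s).succAbove j) = γ j.castSucc
      rw [Fin.succAbove_last]
    rw [e4, e5]
    funext i
    refine Fin.lastCases ?_ (fun j => ?_) i
    · simp
    · simp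
  have h8 := hγ (fun i => by
    show γ ((Fin.last s).succAbove i) ∈ Set.Ioc (0:ℝ) 1
    exact hpos _) (hpos _)
  rwa [e3] at h8

/-- the cube -/
theorem cube_ae {s : ℕ} {p : (Fin s → ℝ) → Prop} : (∀ᵐ ξ ∂(cube s), p ξ) ↔ ∀ᵐ ξ : Fin s → ℝ, (∀ i, ξ i ∈ Set.Ioc (0:ℝ) 1) → p ξ := by
  have h1 : cube s = volume.restrict (Set.univ.pi fun _ : Fin s => Set.Ioc (0:ℝ) 1) := by
    unfold cube
    rw [volume_pi, Measure.restrict_pi_pi]
  rw [h1, ae_restrict_iff' (MeasurableSet.univ_pi fun _ => measurableSet_Ioc)]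
  have h2 : ∀ ξ : Fin s → ℝ, ξ ∈ (Set.univ.pi fun _ : Fin s => Set.Ioc (0:ℝ) 1) ↔ ∀ i, ξ i ∈ Set.Ioc (0:ℝ) 1 := by
    intro ξ
    simp only [Set.mem_pi, Set.mem_univ, true_imp_iff]
  simp only [h2]

/-- **The exceptional sets.** -/
theorem PP_all {k : ℕ} (hk : 3 ≤ k) (j : ℕ) : PP k (k + 1 + j) (2 ^ j / k) := by
  induction j with
  | zero =>
    intro η θ δ hη hθ hδ
    obtain ⟨m, rfl⟩ : ∃ m, k = m + 2 := ⟨k - 2, by omega⟩
    have hk0 : (0:ℝ) < ((m + 2 : ℕ) : ℝ) := by positivity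
    have h1 := base (m := m) (r := m + 2) (by omega) le_rfl (by omega)
    rw [← cube_ae]
    filter_upwards [h1] with ξ hξ
    refine hξ η hη θ hθ δ ?_
    have e1 : (((m + 2 + 1 : ℕ) : ℝ)) / ((m + 2 : ℕ) : ℝ) - 1 = 2 ^ 0 / ((m + 2 : ℕ) : ℝ) := by
      push_cast
      field_simp
      ring
    rw [e1]
    exact hδ
  | succ j ih =>
    have h1 := PP_succ (by omega : 2 ≤ k) (by omega : k ≤ k + 1 + j) ih
    have e1 : 2 * (2 ^ j / (k:ℝ)) = 2 ^ (j + 1) / k := by ring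
    rw [e1] at h1
    exact h1

end Pool.Agent.K7.H74.WL
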